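import Pool.Agent.P.MP_d66c6d_pr.F.Defs

/-!
Statements of the Poisson toolbox.
-/

namespace Pool.Agent.P.MP_d66c6d_pr

open MeasureTheory ProbabilityTheory Set Metric Filter Topology
open scoped ENNReal

-- deps:
/-- The Poisson law of a finite intensity. -/
def S_PPF : Prop := ∀ (E : Type) [MeasurableSpace E] (m : Measure E), IsFiniteMeasure m →
  IsPP m (ppFin m)

-- deps: PPF
/-- Existence and countable superposition. -/
def S_PPE : Prop := ∀ (E : Type) [MeasurableSpace E],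
  (∀ m : Measure E, SFinite m → IsPP m (PP m)) ∧
  ∀ (ι : Type) [Countable ι] (m : ι → Measure E), (∀ i, SFinite (m i)) →
    (Measure.infinitePi fun i => PP (m i)).map Cfg.iun = PP (Measure.sum m)

-- deps: PPE
/-- Superposition, restriction, mapping, independence. -/
def S_PPO : Prop := ∀ (E : Type) [MeasurableSpace E] (m : Measure E), SFinite m →
  (∀ m' : Measure E, SFinite m' →
    ((PP m).prod (PP m')).map (fun p => p.1 ∪ p.2) = PP (m + m')) ∧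
  (∀ A, MeasurableSet A → (PP m).map (Cfg.res A) = PP (m.restrict A)) ∧
  (∀ (F : Type) [MeasurableSpace F] (g : E → F), Measurable g →
    (PP m).map (Cfg.map g) = PP (m.map g)) ∧
  (∀ A B, MeasurableSet A → MeasurableSet B → Disjoint A B →
    (PP m).map (fun S => (S.res A, S.res B)) = (PP (m.restrict A)).prod (PP (m.restrict B))) ∧
  (∀ (ι : Type) (A : ι → Set E), (∀ i, MeasurableSet (A i)) →
    Pairwise (fun i j => Disjoint (A i) (A j)) →
    iIndepFun (fun i (S : Cfg E) => S.res (A i)) (PP m)) ∧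
  (∀ p : E → Prop, (∀ᵐ x ∂m, p x) → ∀ᵐ S ∂PP m, ∀ x ∈ S.pts, p x) ∧
  (∀ A, MeasurableSet A → m A = ∞ → ∀ᵐ S ∂PP m, ∃ x ∈ S.pts, x ∈ A) ∧
  ∀ A, MeasurableSet A → PP m {S | ∃ x ∈ S.pts, x ∈ A} ≤ m A

-- deps: PPF PPE PPO
/-- Absolute continuity, insertion and deletion of points. -/
def S_PPA : Prop := ∀ (E : Type) [MeasurableSpace E] (m m' : Measure E),
  (IsFiniteMeasure m → IsFiniteMeasure m' → m ≪ m' → PP m ≪ PP m') ∧
  (IsFiniteMeasure m → SFinite m' → m' ≪ m →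
    ((PP m).prod m').map (fun p => insert p.2 p.1) ≪ PP m) ∧
  (SFinite m → IsFiniteMeasure m' → ∀ A, MeasurableSet A →
    en (m' univ) * PP m A ≤ PP (m + m') A) ∧
  (SFinite m → SFinite m' → ∀ A, MeasurableSet A →
    (∀ S T : Cfg E, S.pts ⊆ T.pts → S ∈ A → T ∈ A) → PP m A ≤ PP (m + m') A) ∧
  (SFinite m → SFinite m' → ∀ A B, MeasurableSet A → MeasurableSet B →
    (∀ S T : Cfg E, Disjoint T.pts B → S ∪ T ∈ A → S ∈ A) → PP (m + m') A ≤ PP m A + m' B)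

-- deps:
/-- Measurable enumeration of locally finite configurations. -/
def S_ENUM : Prop := ∀ (E : Type) [MeasurableSpace E] [StandardBorelSpace E] [Nonempty E],
  (∀ B : Set E, MeasurableSet B → ∀ n : ℕ, MeasurableSet {S : Cfg E | (S.pts ∩ B).encard ≤ n}) ∧
  ∀ A : ℕ → Set E, (∀ j, MeasurableSet (A j)) → MeasurableSet {S : Cfg E | LF A S} ∧
    ∃ (e : ℕ → Cfg E → E) (ok : ℕ → Set (Cfg E)), (∀ i, Measurable (e i)) ∧
      (∀ i, MeasurableSet (ok i)) ∧ ∀ S, LF A S → S.pts = {x | ∃ i, S ∈ ok i ∧ e i S = x}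

-- deps: PPF PPE PPO ENUM
/-- Local finiteness, numbers of points, and events that quantify over the points. -/
def S_JOINT : Prop := ∀ (E : Type) [MeasurableSpace E] [StandardBorelSpace E] [Nonempty E],
  (∀ m : Measure E, SFinite m → ∀ B, MeasurableSet B → ∀ n : ℕ,
    ((n : ℝ≥0∞) + 1) * PP m {S | ¬ (S.pts ∩ B).encard ≤ n} ≤ m B) ∧
  (∀ m : Measure E, SFinite m → ∀ A : ℕ → Set E, (∀ j, MeasurableSet (A j)) →
    (∀ j, m (A j) ≠ ∞) → m (⋃ j, A j)ᶜ = 0 → ∀ᵐ S ∂PP m, LF A S) ∧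
  (∀ A : ℕ → Set E, (∀ j, MeasurableSet (A j)) → ∀ (Y : Type) [MeasurableSpace Y]
    (B : Set (Y × Cfg E × E)), MeasurableSet B →
    MeasurableSet {p : Y × Cfg E | LF A p.2 ∧ ∃ x ∈ p.2.pts, (p.1, p.2, x) ∈ B} ∧
    ∃ φ : Y × Cfg E → Cfg E, Measurable φ ∧
      ∀ p, LF A p.2 → (φ p).pts = {x ∈ p.2.pts | (p.1, p.2, x) ∈ B}) ∧
  ∀ (m : Measure E), SigmaFinite m → ∀ (Y : Type) [MeasurableSpace Y] (ρ : Measure Y),
    SFinite ρ → ∀ B : Set (Y × E), MeasurableSet B → (∀ᵐ y ∂ρ, m {x | (y, x) ∈ B} = 0) →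
    ∀ᵐ p ∂ρ.prod (PP m), ∀ x ∈ p.2.pts, (p.1, x) ∉ B

-- deps: ENUM
/-- Joint measurability of the reached set. -/
def S_RCH : Prop := ∀ (E : Type) [MeasurableSpace E] [StandardBorelSpace E] [Nonempty E]
  (A : ℕ → Set E), (∀ j, MeasurableSet (A j)) → ∀ (Y : Type) [MeasurableSpace Y]
  (R : Y → E → E → Prop) (D : Y → Set E), MeasurableSet {q : Y × E × E | R q.1 q.2.1 q.2.2} →
  MeasurableSet {q : Y × E | q.2 ∈ D q.1} →
  MeasurableSet {q : Y × Cfg E × E | LF A q.2.1 ∧ q.2.2 ∈ rch (R q.1) (D q.1) q.2.1}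

-- deps: PPE PPO ENUM JOINT
/-- The exchange lemma: outside the reached set the configuration is fresh. -/
def S_EXCH : Prop := ∀ (E : Type) [MeasurableSpace E] [StandardBorelSpace E] [Nonempty E]
  (R : E → E → Prop) (D : Set E),
  (∀ S S' T : Cfg E, T.pts = (S.pts ∩ rch R D S) ∪ (S'.pts \ rch R D S) →
    rch R D T = rch R D S) ∧
  ∀ m : Measure E, SigmaFinite m → MeasurableSet {q : E × E | R q.1 q.2} → MeasurableSet D →
    ∃ φ : Cfg E × Cfg E → Cfg E, MeasurePreserving φ ((PP m).prod (PP m)) (PP m) ∧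
      ∀ᵐ p ∂(PP m).prod (PP m),
        (φ p).pts = (p.1.pts ∩ rch R D p.1) ∪ (p.2.pts \ rch R D p.1)

-- deps: PPE
-- imports: Pool.Agent.P.MP_d66c6d_pr.Mass
/-- The law of the image of a Poisson point process. -/
def S_TRANS : Prop := ∀ (Ω E F : Type) [MeasurableSpace Ω] [MeasurableSpace E]
  [MeasurableSpace F] (P : Measure Ω) (m : Measure E) (N : Ω → Set E) (g : E → F),
  SigmaFinite m → IsPPP P m N → Measurable g →
  MeasurePreserving (fun ω => (⟨g '' N ω⟩ : Cfg F)) P (PP (m.map g))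

-- deps:
/-- Almost sure properties pass to the image under a continuous map of Polish spaces. -/
def S_AEMAP : Prop := ∀ (X Y : Type) [TopologicalSpace X] [PolishSpace X] [MeasurableSpace X]
  [BorelSpace X] [TopologicalSpace Y] [T2Space Y] [MeasurableSpace Y] [BorelSpace Y]
  (μ : Measure X) (f : X → Y) (p : Y → Prop), SFinite μ → Continuous f →
  (∀ᵐ x ∂μ, p (f x)) → ∀ᵐ y ∂μ.map f, p y

-- deps: PPO AEMAP REV
-- imports: Pool.Agent.P.MP_d66c6d_pr.Mass Pool.Agent.P.MP_d66c6d_pr.S.Inv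
/-- The loop measure on traces. -/
def S_MUK : Prop := ∀ ν : Measure Br, IsBridge ν →
  SigmaFinite (loopMeasure ν) ∧ SigmaFinite (muK ν) ∧
  (∀ a c : ℂ, a ≠ 0 → MeasurePreserving (simK a c) (muK ν) (muK ν)) ∧
  (∃ C : ℝ, 0 < C ∧ ∀ (z : ℂ) (R s : ℝ), 0 < R → 0 < s →
    muK ν (inK (ball z R) ∩ bigK s) ≤ ENNReal.ofReal (C * (R / s) ^ 2)) ∧
  muK ν (⋃ j, stdA j)ᶜ = 0 ∧ (∀ K, muK ν {K} = 0) ∧
  (∀ p : KC → Prop, (∀ᵐ l ∂loopMeasure ν, p (trB (lp l).2)) → ∀ᵐ K ∂muK ν, p K) ∧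
  ∀ m : Measure KC, SFinite m → ∀ c ∈ Icc (0 : ℝ) 1,
    (PP (muL m)).map (lev c) = PP (ENNReal.ofReal c • m)

end Pool.Agent.P.MP_d66c6d_pr
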