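import Pool.Agent.P.MP_d66c6d_pr.C.Defs

/-!
Configurations with the void sigma-algebra, Poisson laws, and the space of traces.
-/

namespace Pool.Agent.P.MP_d66c6d_pr

open MeasureTheory ProbabilityTheory Set Metric Filter Topology
open scoped ENNReal

/-- A configuration of points of `E`. -/
@[ext] structure Cfg (E : Type) where
  pts : Set E

section Cfg

variable {E F : Type}

instance : EmptyCollection (Cfg E) := ⟨⟨∅⟩⟩

instance : Union (Cfg E) := ⟨fun S T => ⟨S.pts ∪ T.pts⟩⟩

instance : Insert E (Cfg E) := ⟨fun x S => ⟨insert x S.pts⟩⟩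

@[simp] theorem Cfg.pts_empty : (∅ : Cfg E).pts = ∅ := rfl

@[simp] theorem Cfg.pts_union (S T : Cfg E) : (S ∪ T).pts = S.pts ∪ T.pts := rfl

@[simp] theorem Cfg.pts_insert (x : E) (S : Cfg E) : (insert x S).pts = insert x S.pts := rfl

/-- The points in `A`. -/
def Cfg.res (A : Set E) (S : Cfg E) : Cfg E := ⟨S.pts ∩ A⟩

/-- The image of a configuration. -/
def Cfg.map (g : E → F) (S : Cfg E) : Cfg F := ⟨g '' S.pts⟩

/-- The configuration of the values of a family. -/
def Cfg.rng {ι : Type} (f : ι → E) : Cfg E := ⟨range f⟩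

/-- The union of a family of configurations. -/
def Cfg.iun {ι : Type} (S : ι → Cfg E) : Cfg E := ⟨⋃ i, (S i).pts⟩

@[simp] theorem Cfg.pts_res (A : Set E) (S : Cfg E) : (S.res A).pts = S.pts ∩ A := rfl

@[simp] theorem Cfg.pts_map (g : E → F) (S : Cfg E) : (S.map g).pts = g '' S.pts := rfl

@[simp] theorem Cfg.pts_rng {ι : Type} (f : ι → E) : (Cfg.rng f).pts = range f := rfl

@[simp] theorem Cfg.pts_iun {ι : Type} (S : ι → Cfg E) : (Cfg.iun S).pts = ⋃ i, (S i).pts := rfl

/-- The void event of `A`. -/
def vd (A : Set E) : Set (Cfg E) := {S | Disjoint S.pts A}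

theorem mem_vd {A : Set E} {S : Cfg E} : S ∈ vd A ↔ ∀ x ∈ S.pts, x ∉ A := Set.disjoint_left

theorem vd_union (A B : Set E) : vd (A ∪ B) = vd A ∩ vd B := by
  ext S
  simp [vd]

theorem vd_iUnion {ι : Sort*} (A : ι → Set E) : vd (⋃ i, A i) = ⋂ i, vd (A i) := by
  ext S
  simp [vd]

variable [MeasurableSpace E] [MeasurableSpace F]

instance instMeasCfg : MeasurableSpace (Cfg E) :=
  MeasurableSpace.generateFrom (vd '' {A | MeasurableSet A})

theorem measurableSet_vd {A : Set E} (hA : MeasurableSet A) : MeasurableSet (vd A) :=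
  MeasurableSpace.measurableSet_generateFrom ⟨A, hA, rfl⟩

theorem measurableSet_hit {A : Set E} (hA : MeasurableSet A) :
    MeasurableSet {S : Cfg E | ∃ x ∈ S.pts, x ∈ A} := by
  refine (measurableSet_vd hA).compl.congr ?_
  ext S
  simp [mem_vd]

theorem measurableSet_allIn {A : Set E} (hA : MeasurableSet A) :
    MeasurableSet {S : Cfg E | ∀ x ∈ S.pts, x ∈ A} := by
  refine (measurableSet_vd hA.compl).congr ?_
  ext S
  simp [mem_vd]

theorem measurable_cfg {α : Type*} [MeasurableSpace α] {f : α → Cfg E}
    (h : ∀ A, MeasurableSet A → MeasurableSet (f ⁻¹' vd A)) : Measurable f :=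
  measurable_generateFrom (by rintro _ ⟨A, hA, rfl⟩; exact h A hA)

theorem isPiSystem_vd : IsPiSystem (vd '' {A : Set E | MeasurableSet A}) := by
  rintro _ ⟨A, hA, rfl⟩ _ ⟨B, hB, rfl⟩ -
  exact ⟨A ∪ B, MeasurableSet.union hA hB, vd_union A B⟩

@[fun_prop] theorem Measurable.cfgUnion {α : Type*} [MeasurableSpace α] {f g : α → Cfg E}
    (hf : Measurable f) (hg : Measurable g) : Measurable fun a => f a ∪ g a :=
  measurable_cfg fun A hA => by
    refine ((hf (measurableSet_vd hA)).inter (hg (measurableSet_vd hA))).congr ?_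
    ext a
    simp [vd]

@[fun_prop] theorem Measurable.cfgInsert {α : Type*} [MeasurableSpace α] {x : α → E}
    {f : α → Cfg E} (hx : Measurable x) (hf : Measurable f) :
    Measurable fun a => insert (x a) (f a) :=
  measurable_cfg fun A hA => by
    refine ((hx hA).compl.inter (hf (measurableSet_vd hA))).congr ?_
    ext a
    simp [vd]

theorem measurable_res {A : Set E} (hA : MeasurableSet A) : Measurable (Cfg.res A) :=
  measurable_cfg fun B hB => by
    refine (measurableSet_vd (hA.inter hB)).congr ?_
    ext S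
    simp only [mem_preimage, mem_vd, Cfg.pts_res, mem_inter_iff]
    tauto

theorem measurable_cfgMap {g : E → F} (hg : Measurable g) : Measurable (Cfg.map g) :=
  measurable_cfg fun B hB => by
    refine (measurableSet_vd (hg hB)).congr ?_
    ext S
    simp [mem_vd]

theorem measurable_rng {ι : Type} [Countable ι] : Measurable (Cfg.rng : (ι → E) → Cfg E) :=
  measurable_cfg fun B hB => by
    have : (Cfg.rng : (ι → E) → Cfg E) ⁻¹' vd B = ⋂ i, (fun f : ι → E => f i) ⁻¹' Bᶜ := by
      ext f
      simp [mem_vd]
    rw [this]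
    exact MeasurableSet.iInter fun i => measurable_pi_apply i hB.compl

theorem measurable_iun {ι : Type} [Countable ι] :
    Measurable (Cfg.iun : (ι → Cfg E) → Cfg E) :=
  measurable_cfg fun B hB => by
    have : (Cfg.iun : (ι → Cfg E) → Cfg E) ⁻¹' vd B =
        ⋂ i, (fun f : ι → Cfg E => f i) ⁻¹' vd B := by
      ext f
      simp [vd]
    rw [this]
    exact MeasurableSet.iInter fun i => measurable_pi_apply i (measurableSet_vd hB)

/-- `P` is a Poisson law of intensity `m`. -/
def IsPP (m : Measure E) (P : Measure (Cfg E)) : Prop :=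
  IsProbabilityMeasure P ∧ ∀ A, MeasurableSet A → P (vd A) = en (m A)

theorem IsPP.unique {m : Measure E} {P P' : Measure (Cfg E)} (h : IsPP m P) (h' : IsPP m P') :
    P = P' := by
  have := h.1
  have := h'.1
  refine ext_of_generate_finite _ rfl isPiSystem_vd ?_ (by simp)
  rintro _ ⟨A, hA, rfl⟩
  rw [h.2 A hA, h'.2 A hA]

open Classical in
/-- The Poisson law of intensity `m` (it exists when `m` is s-finite). -/
noncomputable def PP (m : Measure E) : Measure (Cfg E) :=
  if h : ∃ P, IsPP m P then h.choose else Measure.dirac ∅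

instance instProbPP (m : Measure E) : IsProbabilityMeasure (PP m) := by
  unfold PP
  split_ifs with h
  · exact h.choose_spec.1
  · infer_instance

theorem IsPP.eq_PP {m : Measure E} {P : Measure (Cfg E)} (h : IsPP m P) : P = PP m := by
  have h' : ∃ P, IsPP m P := ⟨P, h⟩
  rw [PP, dif_pos h']
  exact h.unique h'.choose_spec

/-- The Poisson law of a finite intensity: a Poisson number of independent points. -/
noncomputable def ppFin (m : Measure E) : Measure (Cfg E) :=
  Measure.sum fun k : ℕ =>
    (en (m univ) / (k.factorial : ℝ≥0∞)) • (Measure.pi fun _ : Fin k => m).map Cfg.rng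

/-- `S` lies in the union of the sets `A j` and has finitely many points in each. -/
def LF (A : ℕ → Set E) (S : Cfg E) : Prop :=
  S.pts ⊆ ⋃ j, A j ∧ ∀ j, (S.pts ∩ A j).Finite

omit [MeasurableSpace E] in
/-- The points of `E` reached from the seed `A` by a chain of points of `S` for the relation `R`
(the last point of the chain need not be in `S`). -/
def rch (R : E → E → Prop) (A : Set E) (S : Cfg E) : Set E :=
  {x | ∃ y ∈ A, Relation.ReflTransGen (fun u v => u ∈ S.pts ∧ R u v) y x}

end Cfg

/-- Traces: nonempty compact subsets of the plane. -/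
abbrev KC : Type := TopologicalSpace.NonemptyCompacts ℂ

noncomputable instance instMeasKC : MeasurableSpace KC := borel KC

instance instBorelKC : BorelSpace KC := ⟨rfl⟩

/-- The trace of a path. -/
def trB (γ : Br) : KC := ⟨⟨range γ, isCompact_range γ.continuous⟩, range_nonempty _⟩

@[simp] theorem coe_trB (γ : Br) : (trB γ : Set ℂ) = range γ := rfl

theorem continuous_trB : Continuous trB := by
  have h : Continuous fun γ : Br => (⊤ : TopologicalSpace.NonemptyCompacts unitInterval).map γ
      γ.continuous :=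
    Continuous.nonemptyCompacts_map' (g := fun (γ : Br) (s : unitInterval) => γ s)
      continuous_const ContinuousEval.continuous_eval
  refine h.congr fun γ => TopologicalSpace.NonemptyCompacts.ext ?_
  simp

@[fun_prop] theorem Measurable.trB' {α : Type*} [MeasurableSpace α] {b : α → Br}
    (hb : Measurable b) : Measurable fun a => trB (b a) :=
  continuous_trB.measurable.comp hb

@[fun_prop] theorem Measurable.supKC {α : Type*} [MeasurableSpace α] {K L : α → KC}
    (hK : Measurable K) (hL : Measurable L) : Measurable fun a => K a ⊔ L a :=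
  (continuous_sup (L := KC)).measurable.comp (hK.prodMk hL)

/-- The loop measure on traces. -/
noncomputable def muK (ν : Measure Br) : Measure KC :=
  (loopMeasure ν).map fun l => trB (lp l).2

/-- The traces contained in `U`. -/
def inK (U : Set ℂ) : Set KC := {K | (K : Set ℂ) ⊆ U}

/-- The traces that meet `U`. -/
def hitK (U : Set ℂ) : Set KC := {K | ((K : Set ℂ) ∩ U).Nonempty}

/-- The traces of diameter at least `s`. -/
def bigK (s : ℝ) : Set KC := {K | s ≤ diam (K : Set ℂ)}

/-- The standard exhaustion of the traces of positive diameter. -/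
def stdA (j : ℕ) : Set KC := inK (ball 0 ((j : ℝ) + 1)) ∩ bigK (1 / ((j : ℝ) + 1))

/-- The family of sets of a configuration of traces. -/
def sets (S : Cfg KC) : Set (Set ℂ) := (fun K : KC => (K : Set ℂ)) '' S.pts

/-- The image of a trace under `z ↦ a z + c`. -/
noncomputable def simK (a c : ℂ) (K : KC) : KC := K.map (fun z => a * z + c) (by fun_prop)

/-- The loops of label at most `c` of a labelled configuration. -/
def lev (c : ℝ) (S : Cfg (KC × ℝ)) : Cfg KC := (S.res {p | p.2 ≤ c}).map Prod.fst

/-- The intensity of labelled loops: labels are uniform in `(0, 1]`. -/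
noncomputable def muL (m : Measure KC) : Measure (KC × ℝ) :=
  m.prod ((volume : Measure ℝ).restrict (Ioc 0 1))

theorem mem_sets {S : Cfg KC} {A : Set ℂ} : A ∈ sets S ↔ ∃ K ∈ S.pts, (K : Set ℂ) = A := Iff.rfl

@[simp] theorem coe_simK (a c : ℂ) (K : KC) :
    (simK a c K : Set ℂ) = (fun z => a * z + c) '' (K : Set ℂ) := rfl

theorem continuous_simK (a c : ℂ) : Continuous (simK a c) :=
  Continuous.nonemptyCompacts_map (by fun_prop)

theorem isOpen_inK {U : Set ℂ} (hU : IsOpen U) : IsOpen (inK U) :=
  TopologicalSpace.NonemptyCompacts.isOpen_subsets_of_isOpen hU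

theorem isClosed_inK {U : Set ℂ} (hU : IsClosed U) : IsClosed (inK U) :=
  TopologicalSpace.NonemptyCompacts.isClosed_subsets_of_isClosed hU

theorem isOpen_hitK {U : Set ℂ} (hU : IsOpen U) : IsOpen (hitK U) :=
  TopologicalSpace.NonemptyCompacts.isOpen_inter_nonempty_of_isOpen hU

theorem isClosed_hitK {U : Set ℂ} (hU : IsClosed U) : IsClosed (hitK U) :=
  TopologicalSpace.NonemptyCompacts.isClosed_inter_nonempty_of_isClosed hU

theorem isClosed_meetK :
    IsClosed {p : KC × KC | ((p.1 : Set ℂ) ∩ (p.2 : Set ℂ)).Nonempty} := by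
  rw [← isOpen_compl_iff]
  have h : {p : KC × KC | ((p.1 : Set ℂ) ∩ (p.2 : Set ℂ)).Nonempty}ᶜ =
      {p : KC × KC | Disjoint (p.1 : Set ℂ) (p.2 : Set ℂ)} := by
    ext p
    simp [Set.disjoint_iff_inter_eq_empty, not_nonempty_iff_eq_empty]
  rw [h]
  exact TopologicalSpace.NonemptyCompacts.isOpen_setOfPred_disjoint_coe

theorem measurableSet_bigK (s : ℝ) : MeasurableSet (bigK s) := by
  have h : (bigK s)ᶜ = {K : KC | diam (K : Set ℂ) < s} := by
    ext K
    simp [bigK]
  rw [← MeasurableSet.compl_iff, h]
  refine IsOpen.measurableSet (Metric.isOpen_iff.2 fun K hK => ?_)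
  have hK' : diam (K : Set ℂ) < s := hK
  refine ⟨(s - diam (K : Set ℂ)) / 3, by linarith, fun L hL => ?_⟩
  have h1 : (L : Set ℂ) ⊆ thickening ((s - diam (K : Set ℂ)) / 3) (K : Set ℂ) := fun z hz => by
    rw [mem_ball, Metric.NonemptyCompacts.dist_eq] at hL
    obtain ⟨w, hw, hw'⟩ := exists_dist_lt_of_hausdorffDist_lt hz hL
      (hausdorffEDist_ne_top_of_nonempty_of_bounded L.nonempty K.nonempty
        L.isCompact.isBounded K.isCompact.isBounded)
    exact mem_thickening_iff.2 ⟨w, hw, hw'⟩
  have h2 := diam_mono h1 K.isCompact.isBounded.thickening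
  have h3 := diam_thickening_le (K : Set ℂ) (show 0 ≤ (s - diam (K : Set ℂ)) / 3 by linarith)
  change diam (L : Set ℂ) < s
  linarith

theorem measurableSet_stdA (j : ℕ) : MeasurableSet (stdA j) :=
  (isOpen_inK isOpen_ball).measurableSet.inter (measurableSet_bigK _)

theorem measurable_lev (c : ℝ) : Measurable (lev c) :=
  (measurable_cfgMap measurable_fst).comp
    (measurable_res (measurableSet_le measurable_snd measurable_const))

theorem sets_map_trace (N : Set Lp) : sets ⟨(fun l => trB (lp l).2) '' N⟩ = trace '' N := by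
  simp only [sets, image_image, coe_trB, range_lp]

end Pool.Agent.P.MP_d66c6d_pr
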