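import Pool.Agent.P.MP_d66c6d_pr.F.Iface

/-! Step AEMAP of the carpet project. -/

namespace Pool.Agent.P.MP_d66c6d_pr

open MeasureTheory ProbabilityTheory Set Metric Filter Topology
open scoped ENNReal

namespace AemapA

theorem fin {X Y : Type} [TopologicalSpace X] [PolishSpace X] [MeasurableSpace X]
    [BorelSpace X] [TopologicalSpace Y] [T2Space Y] [MeasurableSpace Y] [BorelSpace Y]
    (μ : Measure X) [IsFiniteMeasure μ] {f : X → Y} {p : Y → Prop} (hf : Continuous f)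
    (h : ∀ᵐ x ∂μ, p (f x)) : ∀ᵐ y ∂μ.map f, p y := by
  let _ := TopologicalSpace.upgradeIsCompletelyMetrizable X
  rw [ae_iff] at h ⊢
  have hN : μ (toMeasurable μ {x | ¬ p (f x)}) = 0 := by rwa [measure_toMeasurable]
  refine le_antisymm (le_of_forall_gt_imp_ge_of_dense fun ε hε => ?_) zero_le
  obtain ⟨C, hC, hc, hμ⟩ :=
    (measurableSet_toMeasurable μ {x | ¬ p (f x)}).compl.exists_isCompact_sdiff_lt
      (μ := μ) (measure_ne_top _ _) hε.ne'
  have hm : MeasurableSet (f '' C) := (hc.image hf).isClosed.measurableSet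
  have h1 : {y | ¬ p y} ⊆ (f '' C)ᶜ := by
    rintro _ hy ⟨x, hx, rfl⟩
    exact hC hx (subset_toMeasurable _ _ hy)
  refine (measure_mono h1).trans ?_
  rw [Measure.map_apply hf.measurable hm.compl]
  have h2 : f ⁻¹' (f '' C)ᶜ ⊆
      toMeasurable μ {x | ¬ p (f x)} ∪ (toMeasurable μ {x | ¬ p (f x)})ᶜ \ C := fun x hx => by
    by_cases hx' : x ∈ toMeasurable μ {x | ¬ p (f x)}
    · exact Or.inl hx'
    · exact Or.inr ⟨hx', fun hxC => hx ⟨x, hxC, rfl⟩⟩
  refine (measure_mono h2).trans ((measure_union_le _ _).trans ?_)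
  rw [hN, zero_add]
  exact hμ.le

end AemapA

theorem p_AEMAP :
    S_AEMAP := by
  intro X Y _ _ _ _ _ _ _ _ μ f p hμ hf h
  rw [← sum_sfiniteSeq μ, Measure.map_sum hf.measurable.aemeasurable, Measure.ae_sum_iff]
  rw [← sum_sfiniteSeq μ, Measure.ae_sum_iff] at h
  exact fun n => AemapA.fin _ hf (h n)

end Pool.Agent.P.MP_d66c6d_pr
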