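import Pool.Agent.P.MP_d66c6d_pr.F.Iface

/-! Step ENUM of the carpet project. -/

namespace Pool.Agent.P.MP_d66c6d_pr

open MeasureTheory ProbabilityTheory Set Metric Filter Topology
open scoped ENNReal

namespace EnumA

variable {E : Type} {f : E → ℝ}

theorem gap {t : Set E} (ht : t.Finite) (x : E) :
    ∃ p : ℚ, (p : ℝ) ≤ f x ∧ ∀ y ∈ t, f y < f x → f y < p := by
  have h : ∀ᶠ c in 𝓝 (f x), ∀ y ∈ t, f y < f x → f y < c :=
    (eventually_all_finite ht).2 fun y _ => by
      by_cases e : f y < f x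
      · exact (eventually_gt_nhds e).mono fun c hc _ => hc
      · exact Eventually.of_forall fun c e' => absurd e' e
  obtain ⟨l, u, h1, h2⟩ := mem_nhds_iff_exists_Ioo_subset.1 h
  obtain ⟨p, h3, h4⟩ := exists_rat_btwn h1.1
  exact ⟨p, h4.le, h2 ⟨h3, h4.trans h1.2⟩⟩

theorem step (hf : Function.Injective f) (T : Set E) (n : ℕ) :
    ((n + 1 : ℕ) : ℕ∞) < T.encard ↔
      ∃ p : ℚ, (∃ x ∈ T, (p : ℝ) ≤ f x) ∧ (n : ℕ∞) < (T ∩ {y | f y < p}).encard := by
  constructor
  · intro h
    obtain ⟨t, h1, h2⟩ := exists_subset_encard_eq (Order.add_one_le_of_lt h)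
    have h3 : t.Finite := finite_of_encard_eq_coe (k := n + 2) (by rw [h2]; rfl)
    have h4 : t.Nonempty := nonempty_of_encard_ne_zero (by rw [h2]; simp)
    obtain ⟨x, hx, h5⟩ := exists_max_image t f h3 h4
    obtain ⟨p, h6, h7⟩ := gap (f := f) h3 x
    refine ⟨p, ⟨x, h1 hx, h6⟩, lt_of_lt_of_le ?_ (encard_le_encard (s := t \ {x}) fun y hy =>
      ⟨h1 hy.1, h7 y hy.1 ((h5 y hy.1).lt_of_ne fun e => hy.2 (hf e))⟩)⟩
    have h8 := encard_sdiff_singleton_add_one hx
    rw [h2] at h8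
    rw [WithTop.add_right_cancel ENat.one_ne_top h8]
    exact_mod_cast Nat.lt_succ_self n
  · rintro ⟨p, ⟨x, hx, h1⟩, h2⟩
    have h3 : x ∉ T ∩ {y | f y < p} := fun e => not_lt.2 h1 e.2
    have h4 := encard_le_encard (insert_subset hx (inter_subset_left (t := {y | f y < p})))
    rw [encard_insert_of_notMem h3] at h4
    refine lt_of_lt_of_le ?_ h4
    rw [Nat.cast_add_one]
    exact WithTop.add_lt_add_right ENat.one_ne_top h2

variable [MeasurableSpace E]

theorem cnt (hf : MeasurableEmbedding f) (n : ℕ) : ∀ B : Set E, MeasurableSet B →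
    MeasurableSet {S : Cfg E | (n : ℕ∞) < (S.pts ∩ B).encard} := by
  induction n with
  | zero =>
    intro B hB
    refine (measurableSet_hit hB).congr ?_
    ext S
    simp only [mem_ofPred_eq, Nat.cast_zero, encard_pos]
    rfl
  | succ n ih =>
    intro B hB
    refine (MeasurableSet.iUnion fun p : ℚ => (measurableSet_hit (hB.inter
      (measurableSet_le measurable_const hf.measurable : MeasurableSet {y | (p : ℝ) ≤ f y}))).inter
      (ih _ (hB.inter (measurableSet_lt hf.measurable measurable_const :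
        MeasurableSet {y | f y < p})))).congr ?_
    ext S
    simp only [mem_ofPred_eq, mem_iUnion, mem_inter_iff, step hf.injective, inter_assoc, and_assoc]

theorem low (hf : Measurable f) {B : Set E} (hB : MeasurableSet B) {p : ℝ}
    (hp : ∀ x ∈ B, p ≤ f x) : Measurable fun S : Cfg E => sInf (f '' (S.pts ∩ B)) := by
  refine measurable_of_Iio fun t => ?_
  refine ((measurableSet_hit (hB.inter (measurableSet_lt hf measurable_const :
    MeasurableSet {y | f y < t}))).union ((measurableSet_hit hB).compl.inter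
      (MeasurableSet.const (0 < t)))).congr ?_
  ext S
  simp only [mem_union, mem_ofPred_eq, mem_inter_iff, mem_compl_iff, mem_preimage, mem_Iio]
  rcases (S.pts ∩ B).eq_empty_or_nonempty with h | h
  · have e : ∀ x ∈ S.pts, x ∉ B := fun x h1 h2 => (h ▸ mem_inter h1 h2 : x ∈ (∅ : Set E))
    rw [h, image_empty, Real.sInf_empty]
    exact ⟨fun h' => h'.elim (fun ⟨x, h1, h2, _⟩ => absurd h2 (e x h1)) fun h' => h'.2,
      fun h' => Or.inr ⟨fun ⟨x, h1, h2⟩ => e x h1 h2, h'⟩⟩
  · rw [csInf_lt_iff ⟨p, by rintro _ ⟨x, hx, rfl⟩; exact hp x hx.2⟩ (h.image f)]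
    constructor
    · rintro (⟨x, h1, h2, h3⟩ | h')
      · exact ⟨_, ⟨x, ⟨h1, h2⟩, rfl⟩, h3⟩
      · exact absurd h h'.1
    · rintro ⟨_, ⟨x, hx, rfl⟩, h'⟩
      exact Or.inl ⟨x, hx.1, hx.2, h'⟩

end EnumA

open EnumA in
theorem p_ENUM :
    S_ENUM := by
  intro E _ _ _
  have hf := measurableEmbedding_embeddingReal E
  generalize embeddingReal E = f at hf
  have h1 : ∀ B : Set E, MeasurableSet B → ∀ n : ℕ,
      MeasurableSet {S : Cfg E | (S.pts ∩ B).encard ≤ n} := fun B hB n => by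
    refine (cnt hf n B hB).compl.congr ?_
    ext S
    simp
  refine ⟨h1, fun A hA => ⟨?_, ?_⟩⟩
  · refine ((measurableSet_allIn (MeasurableSet.iUnion hA)).inter (MeasurableSet.iInter fun j =>
      MeasurableSet.iUnion fun n => h1 _ (hA j) n)).congr ?_
    ext S
    simp only [mem_inter_iff, mem_iInter, mem_iUnion, mem_ofPred_eq, LF]
    refine and_congr (by simp [subset_def]) (forall_congr' fun j => ⟨fun ⟨n, h⟩ =>
      finite_of_encard_le_coe h, fun h => ?_⟩)
    obtain ⟨n, e⟩ := h.exists_encard_eq_coe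
    exact ⟨n, e.le⟩
  · obtain ⟨g, hg⟩ := exists_surjective_nat (ℕ × ℚ)
    have hB : ∀ i, MeasurableSet (A (g i).1 ∩ {y | ((g i).2 : ℝ) ≤ f y}) := fun i =>
      (hA _).inter (measurableSet_le measurable_const hf.measurable)
    refine ⟨fun i S => Function.extend f id (fun _ => Classical.arbitrary E)
      (sInf (f '' (S.pts ∩ (A (g i).1 ∩ {y | ((g i).2 : ℝ) ≤ f y})))), _,
      fun i => (hf.measurable_extend measurable_id measurable_const).comp
        (low hf.measurable (hB i) fun x hx => hx.2), fun i => measurableSet_hit (hB i),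
      fun S hS => ?_⟩
    ext x
    constructor
    · intro hx
      obtain ⟨j, hj⟩ := mem_iUnion.1 (hS.1 hx)
      obtain ⟨p, h2, h3⟩ := gap (f := f) (hS.2 j) x
      obtain ⟨i, hi⟩ := hg (j, p)
      refine ⟨i, ⟨x, hx, by rw [hi]; exact ⟨hj, h2⟩⟩, ?_⟩
      have e : IsLeast (f '' (S.pts ∩ (A (g i).1 ∩ {y | ((g i).2 : ℝ) ≤ f y}))) (f x) := by
        rw [hi]
        refine ⟨⟨x, ⟨hx, hj, h2⟩, rfl⟩, ?_⟩
        rintro _ ⟨y, hy, rfl⟩
        exact not_lt.1 fun e => not_lt.2 hy.2.2 (h3 y ⟨hy.1, hy.2.1⟩ e)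
      simp only [e.csInf_eq, hf.injective.extend_apply, id]
    · rintro ⟨i, h2, rfl⟩
      obtain ⟨y, hy, e⟩ := (Set.Nonempty.image f h2).csInf_mem
        (((hS.2 (g i).1).subset fun z hz => ⟨hz.1, hz.2.1⟩).image f)
      have e' : f y = sInf (f '' (S.pts ∩ (A (g i).1 ∩ {y | ((g i).2 : ℝ) ≤ f y}))) := e
      simp only [← e', hf.injective.extend_apply, id]
      exact hy.1

end Pool.Agent.P.MP_d66c6d_pr
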