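import Pool.Agent.P.MP_d66c6d_pr.F.Iface

/-! Step EXCH of the carpet project. -/

namespace Pool.Agent.P.MP_d66c6d_pr

open MeasureTheory ProbabilityTheory Set Metric Filter Topology
open scoped ENNReal

namespace ExchA

variable {E : Type}

/-- The points reached in at most `k` steps. -/
def H (R : E → E → Prop) (D : Set E) : ℕ → Cfg E → Set E
  | 0, _ => D
  | k + 1, S => H R D k S ∪ {v | ∃ u ∈ S.pts, u ∈ H R D k S ∧ R u v}

variable {R : E → E → Prop} {D : Set E}

theorem H_mono (S : Cfg E) : Monotone fun k => H R D k S :=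
  monotone_nat_of_le_succ fun _ => subset_union_left

theorem rch_eq (S : Cfg E) : rch R D S = ⋃ k, H R D k S := by
  refine Subset.antisymm ?_ (iUnion_subset fun k => ?_)
  · rintro x ⟨y, hy, h⟩
    induction h with
    | refl => exact mem_iUnion.2 ⟨0, hy⟩
    | tail _ h2 ih =>
      obtain ⟨k, hk⟩ := mem_iUnion.1 ih
      exact mem_iUnion.2 ⟨k + 1, Or.inr ⟨_, h2.1, hk, h2.2⟩⟩
  · induction k with
    | zero => exact fun x hx => ⟨x, hx, Relation.ReflTransGen.refl⟩
    | succ k ih =>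
      rintro x (hx | ⟨u, h1, h2, h3⟩)
      · exact ih hx
      · obtain ⟨y, hy, h⟩ := ih h2
        exact ⟨y, hy, h.tail ⟨h1, h3⟩⟩

theorem part1 (S S' T : Cfg E) (hT : T.pts = (S.pts ∩ rch R D S) ∪ (S'.pts \ rch R D S)) :
    rch R D T = rch R D S := by
  refine Subset.antisymm ?_ ?_
  · rintro x ⟨y, hy, h⟩
    refine ⟨y, hy, ?_⟩
    induction h with
    | refl => exact Relation.ReflTransGen.refl
    | tail _ h2 ih =>
      have h3 := h2.1
      rw [hT] at h3
      exact ih.tail ⟨h3.elim (fun h => h.1) fun h => (h.2 ⟨y, hy, ih⟩).elim, h2.2⟩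
  · rintro x ⟨y, hy, h⟩
    refine ⟨y, hy, ?_⟩
    induction h with
    | refl => exact Relation.ReflTransGen.refl
    | tail h1 h2 ih => exact ih.tail ⟨hT ▸ Or.inl ⟨h2.1, y, hy, h1⟩, h2.2⟩

theorem H_mix {k : ℕ} {S S' T : Cfg E}
    (hT : T.pts = (S.pts ∩ H R D k S) ∪ (S'.pts \ H R D k S)) :
    ∀ j ≤ k + 1, H R D j T = H R D j S := by
  intro j
  induction j with
  | zero => exact fun _ => rfl
  | succ j ih =>
    intro hj
    have h1 : H R D j S ⊆ H R D k S := H_mono S (by omega)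
    rw [H, H, ih (by omega), hT]
    congr 1
    ext v
    refine exists_congr fun u => ⟨fun h => ⟨?_, h.2⟩, fun h => ⟨Or.inl ⟨h.1, h1 h.2.1⟩, h.2⟩⟩
    exact h.1.elim (fun e => e.1) fun e => (e.2 (h1 h.2.1)).elim

theorem mem_mix {S S' T : Cfg E} {G B : Set E} (hT : T.pts = (S.pts ∩ G) ∪ (S'.pts \ G)) :
    T ∈ vd B ↔ S ∈ vd (B ∩ G) ∧ S' ∈ vd (B \ G) := by
  simp only [mem_vd, hT, mem_union, mem_inter_iff, Set.mem_sdiff]
  constructor
  · exact fun h => ⟨fun x hx hB => h x (Or.inl ⟨hx, hB.2⟩) hB.1,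
      fun x hx hB => h x (Or.inr ⟨hx, hB.2⟩) hB.1⟩
  · rintro h x (hx | hx) hB
    · exact h.1 x hx.1 ⟨hB, hx.2⟩
    · exact h.2 x hx.1 ⟨hB, hx.2⟩

theorem lf_mix {A : ℕ → Set E} {S S' T : Cfg E} {G : Set E} (hS : LF A S) (hS' : LF A S')
    (hT : T.pts = (S.pts ∩ G) ∪ (S'.pts \ G)) : LF A T := by
  have h : T.pts ⊆ S.pts ∪ S'.pts := hT ▸ union_subset_union inter_subset_left sdiff_subset
  refine ⟨h.trans (union_subset hS.1 hS'.1), fun j => ((hS.2 j).union (hS'.2 j)).subset ?_⟩
  rw [← union_inter_distrib_right]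
  exact inter_subset_inter_left _ h

theorem ev_void {X B : Set E} (hX : (X ∩ B).Finite) {G : ℕ → Set E} (hG : Monotone G) :
    ∀ᶠ k in atTop, ∀ x ∈ X ∩ B, x ∈ G k ↔ x ∈ ⋃ k, G k := by
  rw [eventually_all_finite hX]
  intro x _
  by_cases h : x ∈ ⋃ k, G k
  · obtain ⟨k, hk⟩ := mem_iUnion.1 h
    filter_upwards [eventually_ge_atTop k] with j hj
    exact iff_of_true (hG hj hk) h
  · exact Eventually.of_forall fun k => iff_of_false (fun e => h (mem_iUnion.2 ⟨k, e⟩)) h

variable [MeasurableSpace E] {A : ℕ → Set E} {m : Measure E} {μ : Measure (Cfg E)}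

/-- Joint measurability of a random set. -/
def JM (A : ℕ → Set E) (G : Cfg E → Set E) : Prop :=
  MeasurableSet {q : Cfg E × E | LF A q.1 ∧ q.2 ∈ G q.1}

/-- `φ` takes the first configuration on `G` and the second one outside. -/
def Mix (A : ℕ → Set E) (G : Cfg E → Set E) (φ : Cfg E × Cfg E → Cfg E) : Prop :=
  Measurable φ ∧ ∀ p, LF A p.1 → LF A p.2 → (φ p).pts = (p.1.pts ∩ G p.1) ∪ (p.2.pts \ G p.1)

theorem JM.sec {G : Cfg E → Set E} (h : JM A G) {S : Cfg E} (hS : LF A S) :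
    MeasurableSet (G S) := by
  refine (measurable_prodMk_left (x := S) h).congr ?_
  ext x
  simp [hS]

theorem sec (hμ : IsPP m μ) (hLF : ∀ᵐ S ∂μ, LF A S) {G : Cfg E → Set E} (hG : JM A G)
    {φ : Cfg E × Cfg E → Cfg E} (hφ : Mix A G φ) {B : Set E} (hB : MeasurableSet B) {S : Cfg E}
    (hS : LF A S) :
    μ (Prod.mk S ⁻¹' (φ ⁻¹' vd B)) = (vd (B ∩ G S)).indicator (fun _ => en (m (B \ G S))) S := by
  by_cases h : S ∈ vd (B ∩ G S)
  · rw [indicator_of_mem h, ← hμ.2 _ (hB.diff (hG.sec hS))]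
    refine measure_congr ?_
    filter_upwards [hLF] with S' hS'
    exact propext ((mem_mix (hφ.2 (S, S') hS hS')).trans (and_iff_right h))
  · rw [indicator_of_notMem h, ← measure_empty (μ := μ)]
    refine measure_congr ?_
    filter_upwards [hLF] with S' hS'
    exact propext ((mem_mix (hφ.2 (S, S') hS hS')).trans (iff_of_false (fun e => h e.1) id))

theorem mp_of (hμ : IsPP m μ) {φ : Cfg E × Cfg E → Cfg E} (hφ : Measurable φ)
    (h : ∀ B, MeasurableSet B → μ.prod μ (φ ⁻¹' vd B) = en (m B)) :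
    MeasurePreserving φ (μ.prod μ) μ := by
  have := hμ.1
  refine ⟨hφ, IsPP.unique (m := m) ⟨Measure.isProbabilityMeasure_map hφ.aemeasurable,
    fun B hB => ?_⟩ hμ⟩
  rw [Measure.map_apply hφ (measurableSet_vd hB), h B hB]

theorem en_split {B G G' : Set E} (hG' : MeasurableSet G') :
    en (m ((B \ G) \ G')) * en (m ((B \ G) ∩ G')) = en (m (B \ G)) := by
  rw [← en_add, add_comm, measure_inter_add_sdiff _ hG']

theorem ex (hμ : IsPP m μ) (hLF : ∀ᵐ S ∂μ, LF A S) (hD : MeasurableSet D)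
    (hG : ∀ k, JM A (H R D k)) {φ : ℕ → Cfg E × Cfg E → Cfg E}
    (hφ : ∀ k, Mix A (H R D k) (φ k)) (k : ℕ) : MeasurePreserving (φ k) (μ.prod μ) μ := by
  have := hμ.1
  induction k with
  | zero =>
    refine mp_of hμ (hφ 0).1 fun B hB => ?_
    rw [Measure.prod_apply ((hφ 0).1 (measurableSet_vd hB)),
      lintegral_congr_ae (hLF.mono fun S hS => sec hμ hLF (hG 0) (hφ 0) hB hS)]
    change ∫⁻ S, (vd (B ∩ D)).indicator (fun _ => en (m (B \ D))) S ∂μ = _
    rw [lintegral_indicator_const (measurableSet_vd (hB.inter hD)), hμ.2 _ (hB.inter hD),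
      ← en_add, add_comm, measure_inter_add_sdiff _ hD]
  | succ k ih =>
    refine mp_of hμ (hφ _).1 fun B hB => ?_
    have hm := measurable_measure_prodMk_left (ν := μ) ((hφ (k + 1)).1 (measurableSet_vd hB))
    rw [Measure.prod_apply ((hφ _).1 (measurableSet_vd hB)), ← ih.lintegral_comp hm,
      lintegral_prod (fun a => μ (Prod.mk (φ k a) ⁻¹' (φ (k + 1) ⁻¹' vd B)))
        (hm.comp (hφ k).1).aemeasurable, ← hμ.2 B hB,
      ← ih.measure_preimage (measurableSet_vd hB).nullMeasurableSet,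
      Measure.prod_apply ((hφ k).1 (measurableSet_vd hB))]
    refine lintegral_congr_ae (hLF.mono fun S hS => ?_)
    have h0 : H R D k S ⊆ H R D (k + 1) S := H_mono S k.le_succ
    have h1 : ∀ S', LF A S' → μ (Prod.mk (φ k (S, S')) ⁻¹' (φ (k + 1) ⁻¹' vd B)) =
        (vd ((B \ H R D k S) ∩ H R D (k + 1) S)).indicator (fun _ =>
          (vd (B ∩ H R D k S)).indicator
            (fun _ => en (m ((B \ H R D k S) \ H R D (k + 1) S))) S) S' := by
      intro S' hS'
      have hT := (hφ k).2 (S, S') hS hS'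
      have e1 : B ∩ H R D (k + 1) S ∩ H R D k S = B ∩ H R D k S := by
        rw [inter_assoc, inter_eq_self_of_subset_right h0]
      have e2 : (B \ H R D k S) \ H R D (k + 1) S = B \ H R D (k + 1) S := by
        rw [Set.sdiff_sdiff, union_eq_self_of_subset_left h0]
      have e3 := mem_mix (B := B ∩ H R D (k + 1) S) hT
      have e4 : (B ∩ H R D (k + 1) S) \ H R D k S = (B \ H R D k S) ∩ H R D (k + 1) S := by
        ext x
        simp only [Set.mem_sdiff, mem_inter_iff]
        tauto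
      rw [e1, e4] at e3
      rw [sec hμ hLF (hG _) (hφ _) hB (lf_mix hS hS' hT), H_mix hT _ le_rfl, e2]
      by_cases a1 : S ∈ vd (B ∩ H R D k S) <;>
        by_cases a2 : S' ∈ vd ((B \ H R D k S) ∩ H R D (k + 1) S) <;> simp [e3, a1, a2]
    have h2 : MeasurableSet ((B \ H R D k S) ∩ H R D (k + 1) S) :=
      (hB.diff ((hG k).sec hS)).inter ((hG _).sec hS)
    simp only
    rw [lintegral_congr_ae (hLF.mono h1), lintegral_indicator_const (measurableSet_vd h2),
      hμ.2 _ h2, sec hμ hLF (hG k) (hφ k) hB hS]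
    by_cases a1 : S ∈ vd (B ∩ H R D k S)
    · rw [indicator_of_mem a1, indicator_of_mem a1, en_split ((hG _).sec hS)]
    · rw [indicator_of_notMem a1, indicator_of_notMem a1, zero_mul]

end ExchA

open ExchA in
theorem p_EXCH (hPPE : S_PPE) (hPPO : S_PPO) (hENUM : S_ENUM) (hJOINT : S_JOINT) :
    S_EXCH := by
  intro E _ _ _ R D
  refine ⟨part1, fun m hm hR hD => ?_⟩
  have hμ : IsPP m (PP m) := (hPPE E).1 m inferInstance
  have hA : ∀ j, MeasurableSet (spanningSets m j) := measurableSet_spanningSets m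
  have hLF : ∀ᵐ S ∂PP m, LF (spanningSets m) S := (hJOINT E).2.1 m inferInstance _ hA
    (fun j => (measure_spanningSets_lt_top m j).ne) (by simp [iUnion_spanningSets])
  have hsw : Measurable fun q : Cfg E × Cfg E × E => q.2 := measurable_snd
  have hG : ∀ k, JM (spanningSets m) (H R D k) := by
    intro k
    induction k with
    | zero => exact ((hENUM E).2 _ hA).1.prod hD
    | succ k ih =>
      have h1 := ((hJOINT E).2.2.1 _ hA E
        {q : E × Cfg E × E | (LF (spanningSets m) q.2.1 ∧ q.2.2 ∈ H R D k q.2.1) ∧ R q.2.2 q.1}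
        ((measurable_snd ih).inter ((measurable_snd.snd.prodMk measurable_fst) hR))).1
      refine (ih.union (measurable_swap h1)).congr ?_
      ext q
      simp only [H, mem_union, mem_ofPred_eq, mem_preimage, Prod.fst_swap, Prod.snd_swap]
      constructor
      · rintro (h | ⟨h, u, h1, h2, h3⟩)
        · exact ⟨h.1, Or.inl h.2⟩
        · exact ⟨h, Or.inr ⟨u, h1, h2.2, h3⟩⟩
      · rintro ⟨h, h' | ⟨u, h1, h2, h3⟩⟩
        · exact Or.inl ⟨h, h'⟩
        · exact Or.inr ⟨h, u, h1, ⟨h, h2⟩, h3⟩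
  have hG' : JM (spanningSets m) (rch R D) := by
    refine (MeasurableSet.iUnion hG).congr ?_
    ext q
    simp only [rch_eq, mem_iUnion, mem_ofPred_eq, exists_and_left]
  have hmix : ∀ G : Cfg E → Set E, JM (spanningSets m) G → ∃ φ, Mix (spanningSets m) G φ := by
    intro G h
    obtain ⟨φ1, m1, h1⟩ := ((hJOINT E).2.2.1 _ hA (Cfg E)
      {q : Cfg E × Cfg E × E | LF (spanningSets m) q.2.1 ∧ q.2.2 ∈ G q.2.1}
      (measurable_snd h)).2
    obtain ⟨φ2, m2, h2⟩ := ((hJOINT E).2.2.1 _ hA (Cfg E)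
      {q : Cfg E × Cfg E × E | ¬ (LF (spanningSets m) q.1 ∧ q.2.2 ∈ G q.1)}
      ((measurable_fst.prodMk measurable_snd.snd) h).compl).2
    refine ⟨fun p => φ1 p.swap ∪ φ2 p, Measurable.cfgUnion (m1.comp measurable_swap) m2,
      fun p e1 e2 => ?_⟩
    rw [Cfg.pts_union, h1 p.swap e1, h2 p e2]
    ext x
    simp [e1]
  choose φ hφ using fun k => hmix _ (hG k)
  obtain ⟨ψ, hψ⟩ := hmix _ hG'
  have hex := ex hμ hLF hD hG hφ
  have hLF2 : ∀ᵐ p ∂(PP m).prod (PP m),
      LF (spanningSets m) p.1 ∧ LF (spanningSets m) p.2 :=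
    (Measure.quasiMeasurePreserving_fst.ae hLF).and (Measure.quasiMeasurePreserving_snd.ae hLF)
  refine ⟨ψ, mp_of hμ hψ.1 fun B hB => ?_, hLF2.mono fun p hp => hψ.2 p hp.1 hp.2⟩
  have hj : ∀ j, (PP m).prod (PP m) (ψ ⁻¹' vd (B ∩ spanningSets m j)) =
      PP m (vd (B ∩ spanningSets m j)) := by
    intro j
    have hv := measurableSet_vd (hB.inter (hA j))
    have h1 := tendsto_measure_of_ae_tendsto_indicator_of_isFiniteMeasure atTop
      (μ := (PP m).prod (PP m)) (hψ.1 hv) (fun k => (hφ k).1 hv) (hLF2.mono fun p hp => by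
        filter_upwards [ev_void (hp.1.2 j) (H_mono (R := R) (D := D) p.1),
          ev_void (hp.2.2 j) (H_mono (R := R) (D := D) p.1)] with k k1 k2
        rw [mem_preimage, mem_preimage, mem_mix ((hφ k).2 p hp.1 hp.2), mem_mix (hψ.2 p hp.1 hp.2),
          rch_eq]
        simp only [mem_vd, mem_inter_iff, Set.mem_sdiff]
        refine and_congr (forall₂_congr fun x hx => not_congr (and_congr_right fun e => ?_))
          (forall₂_congr fun x hx => not_congr (and_congr_right fun e => not_congr ?_))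
        · exact k1 x ⟨hx, e.2⟩
        · exact k2 x ⟨hx, e.2⟩)
    simp only [fun k => (hex k).measure_preimage hv.nullMeasurableSet] at h1
    exact tendsto_nhds_unique h1 tendsto_const_nhds
  have hanti : Antitone fun j => vd (B ∩ spanningSets m j) := fun i j hij S hS =>
    Disjoint.mono_right (inter_subset_inter_right _ (monotone_spanningSets m hij)) hS
  have hB' : vd B = ⋂ j, vd (B ∩ spanningSets m j) := by
    rw [← vd_iUnion, ← inter_iUnion, iUnion_spanningSets, inter_univ]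
  have t1 := tendsto_measure_iInter_atTop (μ := PP m)
    (fun j => (measurableSet_vd (hB.inter (hA j))).nullMeasurableSet) hanti
    ⟨0, measure_ne_top _ _⟩
  have t2 := tendsto_measure_iInter_atTop (μ := (PP m).prod (PP m))
    (s := fun j => ψ ⁻¹' vd (B ∩ spanningSets m j))
    (fun j => (hψ.1 (measurableSet_vd (hB.inter (hA j)))).nullMeasurableSet)
    (fun i j hij => preimage_mono (hanti hij)) ⟨0, measure_ne_top _ _⟩
  rw [← hμ.2 B hB, hB', preimage_iInter]
  exact tendsto_nhds_unique t2 (t1.congr fun j => (hj j).symm)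

end Pool.Agent.P.MP_d66c6d_pr
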