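import Pool.Agent.P.MP_d66c6d_pr.F.Iface

/-! Step JOINT of the carpet project. -/

namespace Pool.Agent.P.MP_d66c6d_pr

open MeasureTheory ProbabilityTheory Set Metric Filter Topology
open scoped ENNReal

namespace JointA

variable {E : Type} [MeasurableSpace E]

theorem mass (m : Measure E) [IsFiniteMeasure m] (k : ℕ) :
    ((Measure.pi fun _ : Fin k => m).map (Cfg.rng : (Fin k → E) → Cfg E)) univ = m univ ^ k := by
  rw [Measure.map_apply measurable_rng MeasurableSet.univ, preimage_univ, Measure.pi_univ]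
  simp

theorem fin_bound (hPPF : S_PPF) (m : Measure E) [IsFiniteMeasure m] (n : ℕ) {V : Set (Cfg E)}
    (hV : MeasurableSet V) (h : ∀ S ∈ V, ¬ S.pts.encard ≤ n) :
    ((n : ℝ≥0∞) + 1) * ppFin m V ≤ m univ := by
  have hP := (hPPF E m inferInstance).1
  have h1 : ∑' k : ℕ, en (m univ) / (k.factorial : ℝ≥0∞) * m univ ^ k = 1 := by
    have h0 : ppFin m univ = 1 := measure_univ
    rw [ppFin, Measure.sum_apply _ MeasurableSet.univ] at h0
    simpa only [Measure.smul_apply, smul_eq_mul, mass] using h0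
  have h2 : ∀ k : ℕ, ((n : ℝ≥0∞) + 1) * (en (m univ) / (k.factorial : ℝ≥0∞) *
      ((Measure.pi fun _ : Fin k => m).map (Cfg.rng : (Fin k → E) → Cfg E)) V) ≤
      (k : ℝ≥0∞) * (en (m univ) / (k.factorial : ℝ≥0∞) * m univ ^ k) := by
    intro k
    by_cases hk : k ≤ n
    · have h3 : (Cfg.rng : (Fin k → E) → Cfg E) ⁻¹' V = ∅ := by
        refine eq_empty_of_forall_notMem fun f hf => h _ hf ?_
        rw [Cfg.pts_rng, ← image_univ]
        refine (encard_image_le _ _).trans ?_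
        rw [encard_univ]
        simpa using hk
      rw [Measure.map_apply measurable_rng hV, h3]
      simp
    · have h4 : ((n : ℝ≥0∞) + 1) ≤ k := by
        have h5 : n + 1 ≤ k := by omega
        exact_mod_cast h5
      rw [← mass m k]
      gcongr
      exact subset_univ _
  have h3 : ∀ j : ℕ, ((j + 1 : ℕ) : ℝ≥0∞) *
      (en (m univ) / ((j + 1).factorial : ℝ≥0∞) * m univ ^ (j + 1)) =
      m univ * (en (m univ) / (j.factorial : ℝ≥0∞) * m univ ^ j) := by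
    intro j
    have h0 : ((j + 1 : ℕ) : ℝ≥0∞) ≠ 0 := by simp
    have ht : ((j + 1 : ℕ) : ℝ≥0∞) ≠ ∞ := ENNReal.natCast_ne_top _
    rw [Nat.factorial_succ, Nat.cast_mul, div_eq_mul_inv, div_eq_mul_inv,
      ENNReal.mul_inv (Or.inl h0) (Or.inl ht), pow_succ]
    calc _ = (((j + 1 : ℕ) : ℝ≥0∞) * ((j + 1 : ℕ) : ℝ≥0∞)⁻¹) *
          (m univ * (en (m univ) * (j.factorial : ℝ≥0∞)⁻¹ * m univ ^ j)) := by ring
      _ = _ := by rw [ENNReal.mul_inv_cancel h0 ht, one_mul]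
  rw [ppFin, Measure.sum_apply _ hV, ← ENNReal.tsum_mul_left]
  simp only [Measure.smul_apply, smul_eq_mul]
  refine (ENNReal.tsum_le_tsum h2).trans ?_
  rw [tsum_eq_zero_add' ENNReal.summable]
  simp only [h3]
  rw [ENNReal.tsum_mul_left, h1]
  simp

theorem part1 [StandardBorelSpace E] [Nonempty E] (hPPF : S_PPF) (hPPO : S_PPO)
    (hENUM : S_ENUM) (m : Measure E) (hm : SFinite m) (B : Set E) (hB : MeasurableSet B)
    (n : ℕ) : ((n : ℝ≥0∞) + 1) * PP m {S | ¬ (S.pts ∩ B).encard ≤ n} ≤ m B := by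
  by_cases ht : m B = ∞
  · rw [ht]
    exact le_top
  have hfin : IsFiniteMeasure (m.restrict B) := isFiniteMeasure_restrict.2 ht
  have hV : MeasurableSet {S : Cfg E | ¬ (S.pts ∩ B).encard ≤ n} :=
    ((hENUM E).1 B hB n).compl
  have h1 : PP m {S | ¬ (S.pts ∩ B).encard ≤ n} =
      ppFin (m.restrict B) {S | ¬ (S.pts ∩ B).encard ≤ n} := by
    rw [(hPPF E _ hfin).eq_PP, ← (hPPO E m hm).2.1 B hB,
      Measure.map_apply (measurable_res hB) hV]
    congr 1
    ext S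
    simp only [mem_ofPred_eq, mem_preimage, Cfg.pts_res, inter_assoc, inter_self]
  rw [h1]
  refine (fin_bound hPPF _ n hV fun S hS hS' => hS ?_).trans (by simp)
  exact (encard_le_encard inter_subset_left).trans hS'

theorem part2 [StandardBorelSpace E] [Nonempty E] (hPPF : S_PPF) (hPPO : S_PPO)
    (hENUM : S_ENUM) (m : Measure E) (hm : SFinite m) (A : ℕ → Set E)
    (hA : ∀ j, MeasurableSet (A j)) (hf : ∀ j, m (A j) ≠ ∞) (h0 : m (⋃ j, A j)ᶜ = 0) :
    ∀ᵐ S ∂PP m, LF A S := by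
  have h1 : ∀ᵐ S ∂PP m, ∀ x ∈ S.pts, x ∈ ⋃ j, A j :=
    (hPPO E m hm).2.2.2.2.2.1 (fun x => x ∈ ⋃ j, A j) h0
  have h2 : ∀ j, ∀ᵐ S ∂PP m, (S.pts ∩ A j).Finite := by
    intro j
    rw [ae_iff]
    by_contra hne
    obtain ⟨n, hn⟩ := ENNReal.exists_nat_mul_gt hne (hf j)
    refine absurd (part1 hPPF hPPO hENUM m hm (A j) (hA j) n) (not_le.2 (hn.trans_le ?_))
    refine mul_le_mul' le_self_add (measure_mono fun S hS hS' => hS ?_)
    exact finite_of_encard_le_coe hS'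
  filter_upwards [h1, ae_all_iff.2 h2] with S hS1 hS2
  exact ⟨hS1, hS2⟩

theorem part3 [StandardBorelSpace E] [Nonempty E] (hENUM : S_ENUM) (A : ℕ → Set E)
    (hA : ∀ j, MeasurableSet (A j)) (Y : Type) [MeasurableSpace Y]
    (B : Set (Y × Cfg E × E)) (hB : MeasurableSet B) :
    MeasurableSet {p : Y × Cfg E | LF A p.2 ∧ ∃ x ∈ p.2.pts, (p.1, p.2, x) ∈ B} ∧
    ∃ φ : Y × Cfg E → Cfg E, Measurable φ ∧
      ∀ p, LF A p.2 → (φ p).pts = {x ∈ p.2.pts | (p.1, p.2, x) ∈ B} := by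
  obtain ⟨hLF, e, ok, he, hok, hS⟩ := (hENUM E).2 A hA
  have hG : ∀ i, MeasurableSet {p : Y × Cfg E | p.2 ∈ ok i ∧ (p.1, p.2, e i p.2) ∈ B} :=
    fun i => (measurable_snd (hok i)).inter
      ((measurable_fst.prodMk (measurable_snd.prodMk ((he i).comp measurable_snd))) hB)
  refine ⟨?_, fun p => ⟨{x | ∃ i, (p.2 ∈ ok i ∧ (p.1, p.2, e i p.2) ∈ B) ∧ e i p.2 = x}⟩,
    measurable_cfg fun D hD => ?_, fun p hp => ?_⟩
  · refine ((measurable_snd hLF).inter (MeasurableSet.iUnion hG)).congr ?_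
    ext p
    simp only [mem_inter_iff, mem_preimage, mem_ofPred_eq, mem_iUnion]
    refine and_congr_right fun hp => ?_
    rw [hS _ hp]
    constructor
    · rintro ⟨i, h1, h2⟩
      exact ⟨_, ⟨i, h1, rfl⟩, h2⟩
    · rintro ⟨_, ⟨i, h1, rfl⟩, h2⟩
      exact ⟨i, h1, h2⟩
  · refine (MeasurableSet.iInter fun i =>
      (hG i).compl.union (((he i).comp measurable_snd) hD.compl)).congr ?_
    ext p
    simp only [mem_iInter, mem_union, mem_compl_iff, mem_preimage, mem_ofPred_eq, mem_vd,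
      Function.comp_apply]
    constructor
    · rintro h _ ⟨i, h1, rfl⟩
      exact (h i).resolve_left (not_not.2 h1)
    · intro h i
      by_cases h1 : p.2 ∈ ok i ∧ (p.1, p.2, e i p.2) ∈ B
      · exact Or.inr (h _ ⟨i, h1, rfl⟩)
      · exact Or.inl h1
  · ext x
    simp only [mem_ofPred_eq]
    rw [hS _ hp]
    constructor
    · rintro ⟨i, ⟨h1, h2⟩, rfl⟩
      exact ⟨⟨i, h1, rfl⟩, h2⟩
    · rintro ⟨⟨i, h1, rfl⟩, h2⟩
      exact ⟨i, ⟨h1, h2⟩, rfl⟩

theorem part4 [StandardBorelSpace E] [Nonempty E] (hPPF : S_PPF) (hPPO : S_PPO)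
    (hENUM : S_ENUM) (m : Measure E) (hm : SigmaFinite m) (Y : Type) [MeasurableSpace Y]
    (ρ : Measure Y) (B : Set (Y × E)) (hB : MeasurableSet B)
    (h : ∀ᵐ y ∂ρ, m {x | (y, x) ∈ B} = 0) :
    ∀ᵐ p ∂ρ.prod (PP m), ∀ x ∈ p.2.pts, (p.1, x) ∉ B := by
  have hs : SFinite m := inferInstance
  have hLF : ∀ᵐ S ∂PP m, LF (spanningSets m) S :=
    part2 hPPF hPPO hENUM m hs _ (measurableSet_spanningSets m)
      (fun j => (measure_spanningSets_lt_top m j).ne) (by simp [iUnion_spanningSets])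
  have hB' : MeasurableSet {q : Y × Cfg E × E | (q.1, q.2.2) ∈ B} :=
    (measurable_fst.prodMk (measurable_snd.comp measurable_snd)) hB
  have hM := (part3 hENUM _ (measurableSet_spanningSets m) Y _ hB').1
  have h1 : ∀ᵐ p ∂ρ.prod (PP m), LF (spanningSets m) p.2 :=
    Measure.quasiMeasurePreserving_snd.ae hLF
  have h2 : ρ.prod (PP m) {p : Y × Cfg E | LF (spanningSets m) p.2 ∧
      ∃ x ∈ p.2.pts, (p.1, p.2, x) ∈ {q : Y × Cfg E × E | (q.1, q.2.2) ∈ B}} = 0 := by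
    rw [Measure.measure_prod_null hM]
    filter_upwards [h] with y hy
    have h3 : ∀ᵐ S ∂PP m, ∀ x ∈ S.pts, (y, x) ∉ B :=
      (hPPO E m hs).2.2.2.2.2.1 (fun x => (y, x) ∉ B) (by
        rw [ae_iff]
        simpa only [not_not] using hy)
    refine measure_mono_null ?_ (ae_iff.1 h3)
    rintro S ⟨-, x, hx, hx'⟩ hS
    exact hS x hx hx'
  filter_upwards [h1, compl_mem_ae_iff.2 h2] with p hp1 hp2 x hx hx'
  exact hp2 ⟨hp1, x, hx, hx'⟩

end JointA

theorem p_JOINT (hPPF : S_PPF) (hPPE : S_PPE) (hPPO : S_PPO) (hENUM : S_ENUM) :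
    S_JOINT := by
  intro E _ _ _
  exact ⟨JointA.part1 hPPF hPPO hENUM, JointA.part2 hPPF hPPO hENUM, JointA.part3 hENUM,
    fun m hm Y _ ρ _ B hB h => JointA.part4 hPPF hPPO hENUM m hm Y ρ B hB h⟩

end Pool.Agent.P.MP_d66c6d_pr
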