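import Pool.Agent.P.MP_d66c6d_pr.F.Iface
import Pool.Agent.P.MP_d66c6d_pr.B.Iface
import Pool.Agent.P.MP_d66c6d_pr.Mass
import Pool.Agent.P.MP_d66c6d_pr.S.Inv

/-! Step MUK of the carpet project. -/

namespace Pool.Agent.P.MP_d66c6d_pr

open MeasureTheory ProbabilityTheory Set Metric Filter Topology
open scoped ENNReal

namespace MukA

/-- The trace of a rooted loop. -/
noncomputable def tr (l : Lp) : KC := trB (lp l).2

theorem coe_tr (l : Lp) : (tr l : Set ℂ) = trace l := range_lp l

theorem cont_tr : Continuous tr := by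
  refine continuous_trB.comp ?_
  exact continuous_seg.comp (f := fun l : Lp => (l.1, l.1, l.2.1, l.2.2)) (by fun_prop)

theorem muK_apply (ν : Measure Br) {A : Set KC} (hA : MeasurableSet A) :
    muK ν A = loopMeasure ν (tr ⁻¹' A) :=
  Measure.map_apply cont_tr.measurable hA

theorem sf_loop {ν : Measure Br} (h : IsBridge ν) : SigmaFinite (loopMeasure ν) := by
  have := h.gauss
  unfold loopMeasure
  infer_instance

theorem inv {ν : Measure Br} (h : IsBridge ν) {a : ℂ} (ha : a ≠ 0) (c : ℂ) :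
    MeasurePreserving (simK a c) (muK ν) (muK ν) := by
  refine ⟨(continuous_simK a c).measurable, ?_⟩
  have e : simK a c ∘ tr = tr ∘ aff a c := funext fun l =>
    TopologicalSpace.NonemptyCompacts.ext (by
      simp only [Function.comp_apply, coe_simK, coe_tr, trace_aff ha])
  change ((loopMeasure ν).map tr).map _ = (loopMeasure ν).map tr
  rw [Measure.map_map (continuous_simK a c).measurable cont_tr.measurable, e,
    ← Measure.map_map cont_tr.measurable (cont_aff a c).measurable, h.map_aff ha]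

theorem mass {ν : Measure Br} (h : IsBridge ν) : ∃ C : ℝ, 0 < C ∧ ∀ (z : ℂ) (R s : ℝ), 0 < R →
    0 < s → muK ν (inK (ball z R) ∩ bigK s) ≤ ENNReal.ofReal (C * (R / s) ^ 2) := by
  obtain ⟨K, hK, H⟩ := exists_mass h
  have := Real.pi_pos
  refine ⟨16 * Real.pi * K, by positivity, fun z R s hR hs => ?_⟩
  rw [muK_apply ν ((isOpen_inK isOpen_ball).measurableSet.inter (measurableSet_bigK s))]
  refine (measure_mono fun l hl => ?_).trans
    ((H (ball z R) measurableSet_ball (s / 4) (by positivity)).trans (le_of_eq ?_))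
  · have h1 : trace l ⊆ ball z R := coe_tr l ▸ hl.1
    have h2 : s ≤ diam (trace l) := coe_tr l ▸ hl.2
    have h0 : 0 ≤ sz l := by unfold sz; positivity
    have h3 := (diam_mono (trace_sub l) isBounded_closedBall).trans (diam_closedBall h0)
    exact ⟨h1 (root_mem l), by linarith⟩
  · rw [Complex.volume_ball, ← ENNReal.ofReal_pow hR.le, ← NNReal.coe_real_pi,
      ← ENNReal.ofReal_coe_nnreal, ← ENNReal.ofReal_mul (by positivity),
      ← ENNReal.ofReal_mul (by positivity), NNReal.coe_real_pi]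
    congr 1
    field_simp
    ring

theorem mem_std {K : KC} (h : 0 < diam (K : Set ℂ)) : K ∈ ⋃ j, stdA j := by
  obtain ⟨R, hR⟩ := K.isCompact.isBounded.subset_ball (0 : ℂ)
  obtain ⟨i, hi⟩ := exists_nat_ge R
  obtain ⟨k, hk⟩ := exists_nat_one_div_lt h
  refine mem_iUnion.2 ⟨i + k, hR.trans (ball_subset_ball ?_), ?_⟩
  · push_cast; linarith [(Nat.cast_nonneg k : (0 : ℝ) ≤ k)]
  · refine le_trans (one_div_le_one_div_of_le (by positivity) ?_) hk.le
    push_cast; linarith [(Nat.cast_nonneg i : (0 : ℝ) ≤ i)]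

theorem null (hREV : S_REV) {ν : Measure Br} (h : IsBridge ν) : muK ν (⋃ j, stdA j)ᶜ = 0 := by
  rw [muK_apply ν (MeasurableSet.iUnion measurableSet_stdA).compl]
  have h1 := (hREV.2 ν h).2.2.2.2.2.2.2
  have h2 : ∀ᵐ l ∂loopMeasure ν, ¬ sz l ≤ 0 := by
    rw [ae_iff]; simpa only [not_not] using mass_null h
  refine measure_mono_null (fun l hl => ?_) (ae_iff.1 (h1.and h2))
  rintro ⟨⟨-, a2, -⟩, a4⟩
  refine hl (mem_std (lt_of_not_ge fun hd => a4 ?_))
  have hb : Bornology.IsBounded (range (lp l).2) := (tr l).isCompact.isBounded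
  have h3 : ∀ s, √l.2.1 * ‖l.2.2 s‖ ≤ 0 := fun s => by
    have h4 := (dist_le_diam_of_mem hb (mem_range_self s) (mem_range_self 0)).trans hd
    rw [a2, dist_eq_norm] at h4
    simpa [lp, seg_apply, abs_of_nonneg (Real.sqrt_nonneg l.2.1)] using h4
  rcases (Real.sqrt_nonneg l.2.1).eq_or_lt with e | e
  · simp [sz, ← e]
  · have : ‖l.2.2‖ ≤ 0 := (ContinuousMap.norm_le _ le_rfl).2 fun s => by
      by_contra h5
      exact absurd (h3 s) (not_le.2 (mul_pos e (not_le.1 h5)))
    exact mul_nonpos_of_nonneg_of_nonpos (by positivity) this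

theorem shift_le {K : KC} {t t' : ℝ} (e : simK 1 t K = simK 1 t' K) : t ≤ t' := by
  obtain ⟨z, hz, hm⟩ := K.isCompact.exists_isMaxOn K.nonempty Complex.continuous_re.continuousOn
  have h1 : 1 * z + t ∈ (simK 1 t' K : Set ℂ) := e ▸ ⟨z, hz, rfl⟩
  obtain ⟨w, hw, h2⟩ := h1
  have h3 := congrArg Complex.re h2
  have h4 : w.re ≤ z.re := hm hw
  simp only [one_mul, Complex.add_re, Complex.ofReal_re] at h3
  linarith

theorem atom (hREV : S_REV) {ν : Measure Br} (h : IsBridge ν) (K : KC) : muK ν {K} = 0 := by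
  by_contra ha
  obtain ⟨j, h1, h2⟩ : ∃ j, K ∈ stdA j := by
    by_contra hc
    exact ha (measure_mono_null (singleton_subset_iff.2
      (show K ∈ (⋃ j, stdA j)ᶜ from fun e => hc (mem_iUnion.1 e))) (null hREV h))
  obtain ⟨C, -, H⟩ := mass h
  let T : ℕ → KC := fun n => simK 1 ((1 / ((n : ℝ) + 1) : ℝ) : ℂ) K
  have hT : Function.Injective T := fun n m e => by
    have := le_antisymm (shift_le e) (shift_le e.symm)
    rw [one_div, one_div, inv_inj, add_left_inj] at this
    exact_mod_cast this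
  have hs : ⋃ n, ({T n} : Set KC) ⊆ inK (ball 0 ((j : ℝ) + 2)) ∩ bigK (1 / ((j : ℝ) + 1)) := by
    refine iUnion_subset fun n => singleton_subset_iff.2 ⟨?_, ?_⟩
    · rintro _ ⟨z, hz, rfl⟩
      have a1 := mem_ball_zero_iff.1 (h1 hz)
      have a2 : 1 / ((n : ℝ) + 1) ≤ 1 := by
        rw [div_le_one (by positivity)]; linarith [(Nat.cast_nonneg n : (0 : ℝ) ≤ n)]
      have a3 := norm_add_le (1 * z) ((1 / ((n : ℝ) + 1) : ℝ) : ℂ)
      rw [Complex.norm_real, Real.norm_of_nonneg (by positivity), one_mul] at a3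
      rw [mem_ball_zero_iff]
      simp only [one_mul]
      linarith
    · have hi : Isometry fun z : ℂ => 1 * z + ((1 / ((n : ℝ) + 1) : ℝ) : ℂ) :=
        Isometry.of_dist_eq fun x y => by rw [one_mul, one_mul, dist_add_right]
      change _ ≤ diam (_ '' _)
      rw [hi.diam_image]
      exact h2
  have h3 := (measure_mono hs).trans (H 0 _ _ (by positivity) (by positivity))
  rw [measure_iUnion (fun n m e => disjoint_singleton.2 (hT.ne e))
    fun n => measurableSet_singleton _] at h3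
  have h4 : ∑' _ : ℕ, muK ν {K} ≤ ∑' n, muK ν {T n} := ENNReal.tsum_le_tsum fun n => by
    rw [← (inv h one_ne_zero ((1 / ((n : ℝ) + 1) : ℝ) : ℂ)).measure_preimage
      (measurableSet_singleton (T n)).nullMeasurableSet]
    exact measure_mono (singleton_subset_iff.2 (mem_singleton (T n)))
  rw [ENNReal.tsum_const_eq_top_of_ne_zero ha] at h4
  exact ENNReal.ofReal_ne_top (top_le_iff.1 (h4.trans h3))

theorem levl (hPPO : S_PPO) (m : Measure KC) [SFinite m] {c : ℝ} (hc : c ∈ Icc (0 : ℝ) 1) :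
    (PP (muL m)).map (lev c) = PP (ENNReal.ofReal c • m) := by
  have hA : MeasurableSet {p : KC × ℝ | p.2 ≤ c} :=
    measurableSet_le measurable_snd measurable_const
  have : SFinite (muL m) := by unfold muL; infer_instance
  have e : lev c = Cfg.map Prod.fst ∘ Cfg.res {p : KC × ℝ | p.2 ≤ c} := rfl
  rw [e, ← Measure.map_map (measurable_cfgMap measurable_fst) (measurable_res hA),
    (hPPO _ _ this).2.1 _ hA, (hPPO _ _ inferInstance).2.2.1 _ _ measurable_fst]
  congr 1
  have e2 : {p : KC × ℝ | p.2 ≤ c} = univ ×ˢ Iic c := by ext p; simp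
  have e3 : Iic c ∩ Ioc (0 : ℝ) 1 = Ioc 0 c := by
    ext x
    simp only [mem_inter_iff, mem_Iic, mem_Ioc]
    exact ⟨fun h => ⟨h.2.1, h.1⟩, fun h => ⟨h.2, h.1, h.2.trans hc.2⟩⟩
  rw [muL, e2, ← Measure.prod_restrict, Measure.restrict_univ, Measure.map_fst_prod,
    Measure.restrict_apply_univ, Measure.restrict_apply measurableSet_Iic, e3, Real.volume_Ioc,
    sub_zero]

end MukA

theorem p_MUK (hPPO : S_PPO) (hAEMAP : S_AEMAP) (hREV : S_REV) :
    S_MUK := by
  intro ν h
  have h1 := MukA.sf_loop h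
  obtain ⟨C, hC, H⟩ := MukA.mass h
  refine ⟨h1, ?_, fun a c ha => MukA.inv h ha c, ⟨C, hC, H⟩, MukA.null hREV h, MukA.atom hREV h,
    fun p hp => hAEMAP Lp KC (loopMeasure ν) MukA.tr p inferInstance MukA.cont_tr hp,
    fun m _ c hc => MukA.levl hPPO m hc⟩
  refine Measure.sigmaFinite_of_countable (S := insert (⋃ j, stdA j)ᶜ (range stdA))
    ((countable_range _).insert _) ?_ ?_
  · rintro _ (rfl | ⟨j, rfl⟩)
    · rw [MukA.null hREV h]; exact ENNReal.zero_lt_top
    · exact (H 0 _ _ (by positivity) (by positivity)).trans_lt ENNReal.ofReal_lt_top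
  · rw [sUnion_insert, sUnion_range, compl_union_self]

end Pool.Agent.P.MP_d66c6d_pr
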