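import Pool.Agent.P.MP_d66c6d_pr.F.Iface

/-! Step PPA of the carpet project. -/

namespace Pool.Agent.P.MP_d66c6d_pr

open MeasureTheory ProbabilityTheory Set Metric Filter Topology
open scoped ENNReal

namespace PpaA

variable {E : Type} [MeasurableSpace E]

theorem pi_succ (m : Measure E) [SigmaFinite m] (k : ℕ) :
    (Measure.pi fun _ : Fin (k + 1) => m) = (m.prod (Measure.pi fun _ : Fin k => m)).map
      (MeasurableEquiv.piFinSuccAbove (fun _ : Fin (k + 1) => E) 0).symm :=
  ((measurePreserving_piFinSuccAbove (fun _ : Fin (k + 1) => m) 0).symm _).map_eq.symm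

theorem pi_ac {m m' : Measure E} [SigmaFinite m] [SigmaFinite m'] (h : m ≪ m') (k : ℕ) :
    (Measure.pi fun _ : Fin k => m) ≪ Measure.pi fun _ : Fin k => m' := by
  induction k with
  | zero => rw [Measure.pi_of_empty, Measure.pi_of_empty]
  | succ k ih =>
    rw [pi_succ, pi_succ]
    exact (h.prod ih).map (MeasurableEquiv.measurable _)

theorem en_ne_zero {x : ℝ≥0∞} (hx : x ≠ ∞) : en x ≠ 0 := by
  rw [← ENNReal.ofReal_toReal hx, en_ofReal ENNReal.toReal_nonneg]
  exact (ENNReal.ofReal_pos.2 (Real.exp_pos _)).ne'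

theorem piece (m : Measure E) [IsFiniteMeasure m] (k : ℕ) :
    (Measure.pi fun _ : Fin k => m).map Cfg.rng ≪ ppFin m :=
  Measure.absolutelyContinuous_sum_right k (Measure.absolutelyContinuous_smul
    (ENNReal.div_ne_zero.2 ⟨en_ne_zero (measure_ne_top _ _), ENNReal.natCast_ne_top _⟩))

theorem ppFin_null (m : Measure E) {A : Set (Cfg E)} (hA : MeasurableSet A)
    (h : ∀ k, (Measure.pi fun _ : Fin k => m) (Cfg.rng ⁻¹' A) = 0) : ppFin m A = 0 := by
  rw [ppFin, Measure.sum_apply _ hA, ENNReal.tsum_eq_zero]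
  intro k
  rw [Measure.smul_apply, Measure.map_apply measurable_rng hA, h k, smul_zero]

theorem rng_cons {k : ℕ} (x : E) (f : Fin k → E) :
    Cfg.rng ((MeasurableEquiv.piFinSuccAbove (fun _ : Fin (k + 1) => E) 0).symm (x, f)) =
      insert x (Cfg.rng f) := by
  ext y
  simp [MeasurableEquiv.piFinSuccAbove, Fin.insertNthEquiv, Fin.range_cons]

theorem ins (m m' : Measure E) [IsFiniteMeasure m] [SFinite m'] (h : m' ≪ m)
    (e : PP m = ppFin m) : ((PP m).prod m').map (fun p => insert p.2 p.1) ≪ PP m := by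
  have hm : Measurable fun p : Cfg E × E => insert p.2 p.1 := by fun_prop
  refine Measure.AbsolutelyContinuous.mk fun A hA h0 => ?_
  have h1 : ∀ k, ∀ᵐ x ∂m,
      (Measure.pi fun _ : Fin k => m) (Cfg.rng ⁻¹' {S | insert x S ∈ A}) = 0 := fun k => by
    have h2 := piece m (k + 1) (e ▸ h0)
    rw [Measure.map_apply measurable_rng hA, pi_succ,
      Measure.map_apply (MeasurableEquiv.measurable _) (measurable_rng hA),
      Measure.measure_prod_null ((MeasurableEquiv.measurable _) (measurable_rng hA))] at h2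
    filter_upwards [h2] with x hx
    rw [Pi.zero_apply] at hx
    rw [← hx]
    refine congrArg _ ?_
    ext f
    simp only [mem_preimage, mem_setOf_eq, rng_cons]
  rw [Measure.map_apply hm hA, Measure.prod_apply_symm (hm hA)]
  refine (lintegral_congr_ae ?_).trans lintegral_zero
  filter_upwards [h.ae_le (ae_all_iff.2 h1)] with x hx
  rw [e]
  exact ppFin_null m ((Measurable.cfgInsert measurable_const measurable_id) hA) hx

end PpaA

theorem p_PPA (hPPF : S_PPF) (hPPE : S_PPE) (hPPO : S_PPO) :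
    S_PPA := by
  intro E _ m m'
  have hu : Measurable fun p : Cfg E × Cfg E => p.1 ∪ p.2 := by fun_prop
  have key : SFinite m → SFinite m' → ∀ A, MeasurableSet A →
      PP (m + m') A = (PP m).prod (PP m') {p | p.1 ∪ p.2 ∈ A} := fun h h' A hA => by
    rw [← (hPPO E m h).1 m' h', Measure.map_apply hu hA]
    rfl
  refine ⟨fun h h' hac => ?_, fun h h' hac => ?_, fun h h' A hA => ?_, fun h h' A hA hm => ?_,
    fun h h' A B hA hB hm => ?_⟩
  · rw [← (hPPF E m h).eq_PP, ← (hPPF E m' h').eq_PP]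
    exact Measure.absolutelyContinuous_sum_left fun k => Measure.smul_absolutelyContinuous.trans
      (((PpaA.pi_ac hac k).map measurable_rng).trans (PpaA.piece m' k))
  · exact PpaA.ins m m' hac (hPPF E m h).eq_PP.symm
  · rw [key h inferInstance A hA, ← ((hPPE E).1 m' inferInstance).2 univ MeasurableSet.univ,
      mul_comm, ← Measure.prod_prod]
    refine measure_mono ?_
    rintro ⟨S, T⟩ ⟨h1, h2⟩
    have h3 : S ∪ T = S := by
      ext x
      have := mem_vd.1 h2 x
      simp only [Cfg.pts_union, mem_union]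
      exact ⟨fun e => e.elim id fun e => absurd (mem_univ x) (this e), Or.inl⟩
    change S ∪ T ∈ A
    rw [h3]
    exact h1
  · rw [key h h' A hA, ← mul_one (PP m A), ← measure_univ (μ := PP m'), ← Measure.prod_prod]
    refine measure_mono ?_
    rintro ⟨S, T⟩ ⟨h1, -⟩
    exact hm S (S ∪ T) subset_union_left h1
  · rw [key h h' A hA]
    have h1 : {p : Cfg E × Cfg E | p.1 ∪ p.2 ∈ A} ⊆
        A ×ˢ univ ∪ univ ×ˢ {T : Cfg E | ∃ x ∈ T.pts, x ∈ B} := by
      rintro ⟨S, T⟩ h2
      by_cases h3 : Disjoint T.pts B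
      · exact Or.inl ⟨hm S T h3 h2, mem_univ _⟩
      · exact Or.inr ⟨mem_univ _, Set.not_disjoint_iff.1 h3⟩
    refine (measure_mono h1).trans ((measure_union_le _ _).trans ?_)
    rw [Measure.prod_prod, Measure.prod_prod, measure_univ, measure_univ, mul_one, one_mul]
    exact add_le_add le_rfl ((hPPO E m' h').2.2.2.2.2.2.2 B hB)

end Pool.Agent.P.MP_d66c6d_pr
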