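import Pool.Agent.P.MP_d66c6d_pr.F.Iface

/-! Step PPE of the carpet project. -/

namespace Pool.Agent.P.MP_d66c6d_pr

open MeasureTheory ProbabilityTheory Set Metric Filter Topology
open scoped ENNReal

namespace PpeA

theorem continuous_en : Continuous en :=
  ENNReal.continuous_exp.comp (continuous_coe_ennreal_ereal.neg)

theorem en_sum {ι : Type} (s : Finset ι) (f : ι → ℝ≥0∞) :
    en (∑ i ∈ s, f i) = ∏ i ∈ s, en (f i) := by
  induction s using Finset.cons_induction with
  | empty => exact en_zero
  | cons a s ha ih => rw [Finset.sum_cons, Finset.prod_cons, en_add, ih]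

theorem tprod_en {ι : Type} (f : ι → ℝ≥0∞) : ∏' i, en (f i) = en (∑' i, f i) := by
  refine HasProd.tprod_eq ?_
  exact ((continuous_en.tendsto _).comp (ENNReal.summable (f := f)).hasSum).congr
    fun s => en_sum s f

theorem sup {E ι : Type} [MeasurableSpace E] [Countable ι] {m : ι → Measure E}
    (h : ∀ i, IsPP (m i) (PP (m i))) :
    IsPP (Measure.sum m) ((Measure.infinitePi fun i => PP (m i)).map Cfg.iun) := by
  refine ⟨Measure.isProbabilityMeasure_map measurable_iun.aemeasurable, fun A hA => ?_⟩
  have e : (Cfg.iun : (ι → Cfg E) → Cfg E) ⁻¹' vd A = univ.pi fun _ => vd A := by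
    ext f
    simp [vd]
  rw [Measure.map_apply measurable_iun (measurableSet_vd hA), e,
    Measure.infinitePi_pi_univ _ fun _ => measurableSet_vd hA, Measure.sum_apply _ hA, ← tprod_en]
  exact tprod_congr fun i => (h i).2 A hA

end PpeA

open PpeA in
theorem p_PPE (hPPF : S_PPF) :
    S_PPE := by
  intro E _
  have h : ∀ m : Measure E, SFinite m → IsPP m (PP m) := fun m _ => by
    have k := sup (m := sfiniteSeq m) fun i =>
      (hPPF E (sfiniteSeq m i) inferInstance).eq_PP ▸ hPPF E (sfiniteSeq m i) inferInstance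
    rw [sum_sfiniteSeq] at k
    exact k.eq_PP ▸ k
  exact ⟨h, fun ι _ m hm => (sup fun i => h _ (hm i)).eq_PP⟩

end Pool.Agent.P.MP_d66c6d_pr
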