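import Pool.Agent.P.MP_d66c6d_pr.F.Iface

/-! Step PPF of the carpet project. -/

namespace Pool.Agent.P.MP_d66c6d_pr

open MeasureTheory ProbabilityTheory Set Metric Filter Topology
open scoped ENNReal

namespace PpfA

theorem tsum_exp {r : ℝ} (hr : 0 ≤ r) :
    ∑' k : ℕ, ENNReal.ofReal r ^ k / (k.factorial : ℝ≥0∞) = ENNReal.ofReal (Real.exp r) := by
  have h := NormedSpace.expSeries_div_hasSum_exp (𝔸 := ℝ) r
  rw [Real.exp_eq_exp_ℝ, ← h.tsum_eq,
    ENNReal.ofReal_tsum_of_nonneg (fun k => by positivity) h.summable]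
  refine tsum_congr fun k => ?_
  rw [ENNReal.ofReal_div_of_pos (by positivity), ENNReal.ofReal_pow hr, ENNReal.ofReal_natCast]

theorem void {E : Type} [MeasurableSpace E] (m : Measure E) [IsFiniteMeasure m] {A : Set E}
    (hA : MeasurableSet A) : ppFin m (vd A) = en (m A) := by
  have h1 : ∀ k : ℕ, ((Measure.pi fun _ : Fin k => m).map Cfg.rng) (vd A) = m Aᶜ ^ k := fun k => by
    have : (Cfg.rng : (Fin k → E) → Cfg E) ⁻¹' vd A = Set.pi univ fun _ => Aᶜ := by
      ext f
      simp [mem_vd]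
    rw [Measure.map_apply measurable_rng (measurableSet_vd hA), this, Measure.pi_pi]
    simp
  have h2 : en (m Aᶜ) * ∑' k : ℕ, m Aᶜ ^ k / (k.factorial : ℝ≥0∞) = 1 := by
    rw [← ENNReal.ofReal_toReal (measure_ne_top m Aᶜ), tsum_exp ENNReal.toReal_nonneg,
      en_ofReal ENNReal.toReal_nonneg, ← ENNReal.ofReal_mul (Real.exp_pos _).le, ← Real.exp_add]
    simp
  rw [ppFin, Measure.sum_apply _ (measurableSet_vd hA)]
  simp only [Measure.smul_apply, smul_eq_mul, h1]
  rw [← measure_add_measure_compl hA, en_add]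
  refine Eq.trans ?_ ((congrArg (en (m A) * ·) h2).trans (mul_one _))
  rw [← mul_assoc, ← ENNReal.tsum_mul_left]
  refine tsum_congr fun k => ?_
  rw [div_eq_mul_inv, div_eq_mul_inv]
  ring

end PpfA

theorem p_PPF :
    S_PPF := by
  intro E _ m hm
  refine ⟨⟨?_⟩, fun A hA => PpfA.void m hA⟩
  have h := PpfA.void m MeasurableSet.empty
  have e : vd (∅ : Set E) = univ := by
    ext S
    simp [vd]
  rwa [e, measure_empty, en_zero] at h

end Pool.Agent.P.MP_d66c6d_pr
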