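import Pool.Agent.P.MP_d66c6d_pr.F.Iface

/-! Step PPO of the carpet project. -/

namespace Pool.Agent.P.MP_d66c6d_pr

open MeasureTheory ProbabilityTheory Set Metric Filter Topology
open scoped ENNReal

namespace PpoA

variable {E : Type} [MeasurableSpace E]

omit [MeasurableSpace E] in
theorem res_vd (A B : Set E) : Cfg.res A ⁻¹' vd B = vd (B ∩ A) := by
  ext S
  simp only [mem_preimage, mem_vd, Cfg.pts_res, mem_inter_iff]
  tauto

omit [MeasurableSpace E] in
theorem hit_eq (A : Set E) : {S : Cfg E | ∃ x ∈ S.pts, x ∈ A} = (vd A)ᶜ := by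
  ext S
  simp [mem_vd]

theorem en_sum {ι : Type} (s : Finset ι) (f : ι → ℝ≥0∞) : en (∑ i ∈ s, f i) = ∏ i ∈ s, en (f i) := by
  induction s using Finset.cons_induction with
  | empty => simp
  | cons a s ha ih => rw [Finset.sum_cons, Finset.prod_cons, en_add, ih]

theorem one_sub_en (x : ℝ≥0∞) : 1 - en x ≤ x := by
  rcases eq_or_ne x ∞ with rfl | hx
  · exact le_top
  · lift x to NNReal using hx
    rw [← ENNReal.ofReal_coe_nnreal, en_ofReal x.coe_nonneg, tsub_le_iff_right,
      ← ENNReal.ofReal_add x.coe_nonneg (Real.exp_pos _).le, ← ENNReal.ofReal_one]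
    refine ENNReal.ofReal_le_ofReal ?_
    have := Real.add_one_le_exp (-(x : ℝ))
    change 1 ≤ (x : ℝ) + Real.exp (-(x : ℝ))
    linarith

theorem res_law {m : Measure E} {P : Measure (Cfg E)} (h : IsPP m P) {A : Set E}
    (hA : MeasurableSet A) : P.map (Cfg.res A) = PP (m.restrict A) := by
  have := h.1
  refine IsPP.eq_PP ⟨Measure.isProbabilityMeasure_map (measurable_res hA).aemeasurable,
    fun B hB => ?_⟩
  rw [Measure.map_apply (measurable_res hA) (measurableSet_vd hB), res_vd, h.2 _ (hB.inter hA),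
    Measure.restrict_apply hB]

theorem indep {m : Measure E} {P : Measure (Cfg E)} (h : IsPP m P) {ι : Type} (A : ι → Set E)
    (hA : ∀ i, MeasurableSet (A i)) (hd : Pairwise fun i j => Disjoint (A i) (A j)) :
    iIndepFun (fun i (S : Cfg E) => S.res (A i)) P := by
  have := h.1
  rw [iIndepFun_iff_iIndep]
  refine iIndepSets.iIndep (fun i => (measurable_res (hA i)).comap_le)
    (fun i => preimage (Cfg.res (A i)) '' (vd '' {B | MeasurableSet B}))
    (fun i => isPiSystem_vd.comap _) (fun i => MeasurableSpace.comap_generateFrom) ?_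
  rw [iIndepSets_iff]
  intro s f hf
  have key : ∀ i ∈ s, ∃ C, MeasurableSet C ∧ f i = vd (C ∩ A i) := fun i hi => by
    obtain ⟨_, ⟨C, hC, rfl⟩, e⟩ := hf i hi
    exact ⟨C, hC, by rw [← e, res_vd]⟩
  choose! C hC using key
  have hm : ∀ i ∈ s, MeasurableSet (C i ∩ A i) := fun i hi => (hC i hi).1.inter (hA i)
  have e : ⋂ i ∈ s, f i = vd (⋃ i ∈ s, C i ∩ A i) := by
    simp only [vd_iUnion]
    exact iInter₂_congr fun i hi => (hC i hi).2
  rw [e, h.2 _ (Finset.measurableSet_biUnion s hm), measure_biUnion_finset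
    (fun i _ j _ hij => (hd hij).mono inter_subset_right inter_subset_right) hm, en_sum]
  exact Finset.prod_congr rfl fun i hi => by rw [(hC i hi).2, h.2 _ (hm i hi)]

end PpoA

open PpoA in
theorem p_PPO (hPPE : S_PPE) :
    S_PPO := by
  intro E _ m hm
  have h := (hPPE E).1 m hm
  refine ⟨fun m' hm' => ?_, fun A hA => res_law h hA, fun F _ g hg => ?_, fun A B hA hB hd => ?_,
    fun ι A hA hd => indep h A hA hd, fun p hp => ?_, fun A hA e => ?_, fun A hA => ?_⟩
  · have h' := (hPPE E).1 m' hm'
    have hu : Measurable fun p : Cfg E × Cfg E => p.1 ∪ p.2 := by fun_prop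
    refine IsPP.eq_PP ⟨Measure.isProbabilityMeasure_map hu.aemeasurable, fun B hB => ?_⟩
    have e : (fun p : Cfg E × Cfg E => p.1 ∪ p.2) ⁻¹' vd B = vd B ×ˢ vd B := by
      ext p
      simp [vd]
    rw [Measure.map_apply hu (measurableSet_vd hB), e, Measure.prod_prod, h.2 B hB, h'.2 B hB,
      Measure.add_apply, en_add]
  · refine IsPP.eq_PP ⟨Measure.isProbabilityMeasure_map (measurable_cfgMap hg).aemeasurable,
      fun B hB => ?_⟩
    have e : Cfg.map g ⁻¹' vd B = vd (g ⁻¹' B) := by
      ext S
      simp [mem_vd]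
    rw [Measure.map_apply (measurable_cfgMap hg) (measurableSet_vd hB), e, h.2 _ (hg hB),
      Measure.map_apply hg hB]
  · have hi := (indep h (fun b : Bool => cond b A B) (fun b => by cases b <;> assumption)
      (fun i j hij => by
        cases i <;> cases j
        · exact absurd rfl hij
        · exact hd.symm
        · exact hd
        · exact absurd rfl hij)).indepFun (i := true) (j := false) (by simp)
    rw [← res_law h hA, ← res_law h hB]
    exact (indepFun_iff_map_prod_eq_prod_map_map (measurable_res hA).aemeasurable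
      (measurable_res hB).aemeasurable).1 hi
  · obtain ⟨N, h1, h2, h3⟩ := exists_measurable_superset_of_null (ae_iff.1 hp)
    have e : ∀ᵐ S ∂PP m, S ∈ vd N :=
      (mem_ae_iff_prob_eq_one (measurableSet_vd h2)).2 (by rw [h.2 N h2, h3, en_zero])
    filter_upwards [e] with S hS x hx
    by_contra hn
    exact mem_vd.1 hS x hx (h1 hn)
  · have : PP m (vd A) = 0 := by rw [h.2 A hA, e, en_top]
    filter_upwards [compl_mem_ae_iff.2 this] with S hS
    rwa [← hit_eq] at hS
  · rw [hit_eq, prob_compl_eq_one_sub (measurableSet_vd hA), h.2 A hA]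
    exact one_sub_en _

end Pool.Agent.P.MP_d66c6d_pr
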