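import Pool.Agent.P.MP_d66c6d_pr.F.Iface

/-! Step RCH of the carpet project. -/

namespace Pool.Agent.P.MP_d66c6d_pr

open MeasureTheory ProbabilityTheory Set Metric Filter Topology
open scoped ENNReal

namespace RchA

variable {E Y : Type}

/-- The points reached in exactly `k` steps through the enumerated points. -/
def H (R : Y → E → E → Prop) (D : Y → Set E) (e : ℕ → Cfg E → E) (ok : ℕ → Set (Cfg E)) :
    ℕ → Set (Y × Cfg E × E)
  | 0 => {q | q.2.2 ∈ D q.1}
  | k + 1 => ⋃ i, {q | q.2.1 ∈ ok i ∧ (q.1, q.2.1, e i q.2.1) ∈ H R D e ok k ∧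
      R q.1 (e i q.2.1) q.2.2}

theorem meas_H [MeasurableSpace E] [MeasurableSpace Y] {R : Y → E → E → Prop} {D : Y → Set E}
    {e : ℕ → Cfg E → E} {ok : ℕ → Set (Cfg E)}
    (hR : MeasurableSet {q : Y × E × E | R q.1 q.2.1 q.2.2})
    (hD : MeasurableSet {q : Y × E | q.2 ∈ D q.1}) (he : ∀ i, Measurable (e i))
    (hok : ∀ i, MeasurableSet (ok i)) (k : ℕ) : MeasurableSet (H R D e ok k) := by
  induction k with
  | zero =>
    exact (measurable_fst.prodMk (measurable_snd.comp measurable_snd) :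
      Measurable fun q : Y × Cfg E × E => (q.1, q.2.2)) hD
  | succ k ih =>
    refine MeasurableSet.iUnion fun i => ?_
    have h0 : Measurable fun q : Y × Cfg E × E => q.2.1 := measurable_fst.comp measurable_snd
    have h1 : Measurable fun q : Y × Cfg E × E => e i q.2.1 := (he i).comp h0
    exact (h0 (hok i)).inter (((measurable_fst.prodMk (h0.prodMk h1)) ih).inter
      ((measurable_fst.prodMk (h1.prodMk (measurable_snd.comp measurable_snd))) hR))

theorem mem_H {R : Y → E → E → Prop} {D : Y → Set E} {e : ℕ → Cfg E → E}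
    {ok : ℕ → Set (Cfg E)} {y : Y} {S : Cfg E}
    (hS : S.pts = {x | ∃ i, S ∈ ok i ∧ e i S = x}) (x : E) :
    x ∈ rch (R y) (D y) S ↔ ∃ k, (y, S, x) ∈ H R D e ok k := by
  constructor
  · rintro ⟨z, hz, h⟩
    induction h with
    | refl => exact ⟨0, hz⟩
    | tail _ h2 ih =>
      obtain ⟨k, hk⟩ := ih
      obtain ⟨h3, h4⟩ := h2
      rw [hS] at h3
      obtain ⟨i, hi, rfl⟩ := h3
      exact ⟨k + 1, mem_iUnion.2 ⟨i, hi, hk, h4⟩⟩
  · rintro ⟨k, hk⟩
    induction k generalizing x with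
    | zero => exact ⟨x, hk, Relation.ReflTransGen.refl⟩
    | succ k ih =>
      obtain ⟨i, hi, h1, h2⟩ := mem_iUnion.1 hk
      obtain ⟨z, hz, h⟩ := ih _ h1
      refine ⟨z, hz, h.tail ⟨?_, h2⟩⟩
      rw [hS]
      exact ⟨i, hi, rfl⟩

end RchA

theorem p_RCH (hENUM : S_ENUM) :
    S_RCH := by
  intro E _ _ _ A hA Y _ R D hR hD
  obtain ⟨hL, e, ok, he, hok, hS⟩ := (hENUM E).2 A hA
  have h0 : Measurable fun q : Y × Cfg E × E => q.2.1 := measurable_fst.comp measurable_snd
  refine ((h0 hL).inter (MeasurableSet.iUnion (RchA.meas_H hR hD he hok))).congr ?_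
  ext ⟨y, S, x⟩
  refine and_congr_right fun h => ?_
  rw [mem_iUnion]
  exact (RchA.mem_H (hS S h) x).symm

end Pool.Agent.P.MP_d66c6d_pr
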