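import Pool.Agent.P.MP_d66c6d_pr.F.Iface
import Pool.Agent.P.MP_d66c6d_pr.Mass

/-! Step TRANS of the carpet project. -/

namespace Pool.Agent.P.MP_d66c6d_pr

open MeasureTheory ProbabilityTheory Set Metric Filter Topology
open scoped ENNReal

namespace TransA

theorem continuous_en : Continuous en := by
  unfold en
  exact ENNReal.continuous_exp.comp continuous_coe_ennreal_ereal.neg

theorem en_fin {x : ℝ≥0∞} (hx : x ≠ ∞) : en x = ENNReal.ofReal (Real.exp (-x.toReal)) := by
  rw [← en_ofReal ENNReal.toReal_nonneg, ENNReal.ofReal_toReal hx]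

variable {Ω E : Type} [MeasurableSpace Ω] [MeasurableSpace E] {P : Measure Ω} {m : Measure E}
  {N : Ω → Set E}

omit [MeasurableSpace Ω] in
theorem void_inter [SigmaFinite m] (A : Set E) :
    void N A = ⋂ j, void N (A ∩ spanningSets m j) := by
  ext ω
  simp only [void, mem_ofPred_eq, mem_iInter, eq_empty_iff_forall_notMem, mem_inter_iff]
  refine ⟨fun h j x hx => h x ⟨hx.1, hx.2.1⟩, fun h x hx => ?_⟩
  have hx' : x ∈ ⋃ j, spanningSets m j := by
    rw [iUnion_spanningSets]
    trivial
  obtain ⟨j, hj⟩ := mem_iUnion.1 hx'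
  exact h j x ⟨hx.1, hx.2, hj⟩

theorem fin_piece [SigmaFinite m] (A : Set E) (j : ℕ) : m (A ∩ spanningSets m j) ≠ ∞ :=
  ((measure_mono inter_subset_right).trans_lt (measure_spanningSets_lt_top m j)).ne

theorem meas_void' [SigmaFinite m] (h : IsPPP P m N) {A : Set E} (hA : MeasurableSet A) :
    MeasurableSet (void N A) := by
  rw [void_inter (m := m)]
  exact MeasurableSet.iInter fun j =>
    h.meas_void (hA.inter (measurableSet_spanningSets m j)) (fin_piece A j)

theorem prob_void' [SigmaFinite m] (h : IsPPP P m N) {A : Set E} (hA : MeasurableSet A) :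
    P (void N A) = en (m A) := by
  have := h.prob
  have hmono : Monotone fun j => A ∩ spanningSets m j := fun i j hij =>
    inter_subset_inter_right _ (monotone_spanningSets m hij)
  have hanti : Antitone fun j => void N (A ∩ spanningSets m j) := fun i j hij ω hω => by
    have h1 : N ω ∩ (A ∩ spanningSets m j) = ∅ := hω
    exact subset_empty_iff.1 (h1 ▸ inter_subset_inter_right _ (hmono hij))
  have h1 := tendsto_measure_iInter_atTop (μ := P)
    (fun j => (h.meas_void (hA.inter (measurableSet_spanningSets m j))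
      (fin_piece A j)).nullMeasurableSet) hanti ⟨0, measure_ne_top _ _⟩
  rw [← void_inter] at h1
  have h2 := tendsto_measure_iUnion_atTop (μ := m) hmono
  rw [← inter_iUnion, iUnion_spanningSets, inter_univ] at h2
  have h3 := (continuous_en.tendsto _).comp h2
  refine tendsto_nhds_unique h1 (h3.congr fun j => ?_)
  simp only [Function.comp]
  rw [h.prob_void (hA.inter (measurableSet_spanningSets m j)) (fin_piece A j),
    en_fin (fin_piece A j)]

end TransA

theorem p_TRANS (hPPE : S_PPE) :
    S_TRANS := by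
  intro Ω E F _ _ _ P m N g hm h hg
  have := h.prob
  have hpre : ∀ A : Set F,
      (fun ω => (⟨g '' N ω⟩ : Cfg F)) ⁻¹' vd A = void N (g ⁻¹' A) := fun A => by
    ext ω
    simp only [mem_preimage, mem_vd, void, mem_ofPred_eq, eq_empty_iff_forall_notMem,
      mem_inter_iff, forall_mem_image]
    exact ⟨fun H x hx => H hx.1 hx.2, fun H x hx hx' => H x ⟨hx, hx'⟩⟩
  have hmeas : Measurable fun ω => (⟨g '' N ω⟩ : Cfg F) :=
    measurable_cfg fun A hA => by
      rw [hpre]
      exact TransA.meas_void' h (hg hA)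
  refine ⟨hmeas, IsPP.eq_PP ⟨Measure.isProbabilityMeasure_map hmeas.aemeasurable, ?_⟩⟩
  intro A hA
  rw [Measure.map_apply hmeas (measurableSet_vd hA), hpre, TransA.prob_void' h (hg hA),
    Measure.map_apply hg hA]

end Pool.Agent.P.MP_d66c6d_pr
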